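import Pool.Agent.Helper69.Germ.Perfect
import Pool.Agent.Helper58.Germ.Glue

/-!
# Chain lemma (R5 of MP_91c48b_an), with `rolling` as hypothesis
-/

open Filter Topology Set

namespace Pool.Agent.Germ

noncomputable section

/-! ### pieces supported in `[0,1]` -/

lemma piece_d1 {g : Equiv.Perm ℝ} (hs : SuppIn 0 1 g) (hc : ContDiff ℝ 2 g) (x : ℝ)
    (hx : x ≤ 0 ∨ 1 ≤ x) : deriv g x = 1 := by
  have hcl : IsClosed {x | deriv g x = 1} := isClosed_eq (c2_cd1 hc).continuous continuous_const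
  have h0 : Iio (0 : ℝ) ⊆ {x | deriv g x = 1} := by
    intro y hy
    have h1 : (g : ℝ → ℝ) =ᶠ[𝓝 y] fun z => z := by
      filter_upwards [gt_mem_nhds (show y < 0 from hy)] with z hz
      exact hs z (Or.inl (le_of_lt hz))
    show deriv g y = 1
    rw [h1.deriv_eq]; exact deriv_id y
  have h1 : Ioi (1 : ℝ) ⊆ {x | deriv g x = 1} := by
    intro y hy
    have h1 : (g : ℝ → ℝ) =ᶠ[𝓝 y] fun z => z := by
      filter_upwards [lt_mem_nhds (show 1 < y from hy)] with z hz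
      exact hs z (Or.inr (le_of_lt hz))
    show deriv g y = 1
    rw [h1.deriv_eq]; exact deriv_id y
  rcases hx with hx | hx
  · have := closure_minimal h0 hcl
    rw [closure_Iio] at this
    exact this hx
  · have := closure_minimal h1 hcl
    rw [closure_Ioi] at this
    exact this hx

lemma piece_d2 {g : Equiv.Perm ℝ} (hs : SuppIn 0 1 g) (hc : ContDiff ℝ 2 g) (x : ℝ)
    (hx : x ≤ 0 ∨ 1 ≤ x) : deriv (deriv g) x = 0 := by
  have hcl : IsClosed {x | deriv (deriv g) x = 0} :=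
    isClosed_eq ((c2_cd1 hc).continuous_deriv (by norm_num)) continuous_const
  have h0 : Iio (0 : ℝ) ⊆ {x | deriv (deriv g) x = 0} := by
    intro y hy
    have h1 : (deriv g : ℝ → ℝ) =ᶠ[𝓝 y] fun _ => 1 := by
      filter_upwards [gt_mem_nhds (show y < 0 from hy)] with z hz
      exact piece_d1 hs hc z (Or.inl (le_of_lt hz))
    show deriv (deriv g) y = 0
    rw [h1.deriv_eq]; exact deriv_const y _
  have h1 : Ioi (1 : ℝ) ⊆ {x | deriv (deriv g) x = 0} := by
    intro y hy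
    have h1 : (deriv g : ℝ → ℝ) =ᶠ[𝓝 y] fun _ => 1 := by
      filter_upwards [lt_mem_nhds (show 1 < y from hy)] with z hz
      exact piece_d1 hs hc z (Or.inr (le_of_lt hz))
    show deriv (deriv g) y = 0
    rw [h1.deriv_eq]; exact deriv_const y _
  rcases hx with hx | hx
  · have := closure_minimal h0 hcl
    rw [closure_Iio] at this
    exact this hx
  · have := closure_minimal h1 hcl
    rw [closure_Ioi] at this
    exact this hx

/-- the slots -/
def slot (j : ℕ) : Set ℝ := Ioo (j : ℝ) (j + 1)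

/-- shift by `j` -/
def shf (j : ℕ) (f : Equiv.Perm ℝ) : Equiv.Perm ℝ :=
  Equiv.addRight (j : ℝ) * f * (Equiv.addRight (j : ℝ))⁻¹

lemma shf_apply (j : ℕ) (f : Equiv.Perm ℝ) (x : ℝ) : shf j f x = f (x - j) + j := by
  simp [shf, Equiv.Perm.mul_apply, sub_eq_add_neg]

lemma shf_mul (j : ℕ) (f g : Equiv.Perm ℝ) : shf j (f * g) = shf j f * shf j g := by
  unfold shf
  group

lemma shf_comm (j : ℕ) (f g : Equiv.Perm ℝ) : shf j (comm f g) = comm (shf j f) (shf j g) := by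
  unfold shf comm
  group

lemma slot_disj (i j : ℕ) (x : ℝ) (hi : x ∈ slot i) (hj : x ∈ slot j) : i = j := by
  have h1 : (i : ℝ) < j + 1 := hi.1.trans hj.2
  have h2 : (j : ℝ) < i + 1 := hj.1.trans hi.2
  have h3 : i < j + 1 := by exact_mod_cast h1
  have h4 : j < i + 1 := by exact_mod_cast h2
  omega

lemma slot_glb {g : ℕ → Equiv.Perm ℝ} (hs : ∀ j, SuppIn 0 1 (g j)) :
    Glb slot (fun j => shf j (g j)) := by
  refine ⟨slot_disj, fun j x hx => ?_⟩
  rw [shf_apply]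
  have h1 : x - j ≤ 0 ∨ 1 ≤ x - j := by
    simp only [slot, mem_Ioo, not_and_or, not_lt] at hx
    rcases hx with hx | hx
    · left; linarith
    · right; linarith
  rw [hs j _ h1]; ring

/-- the glued permutation -/
def gl (g : ℕ → Equiv.Perm ℝ) : Equiv.Perm ℝ := glue slot (fun j => shf j (g j))

/-- finite sums of shifted pieces -/
def psum (ψ : ℕ → ℝ → ℝ) (N : ℕ) (y : ℝ) : ℝ := ∑ j ∈ Finset.range N, ψ j (y - j)

lemma psum_eq (ψ : ℕ → ℝ → ℝ) (h0 : ∀ j x, x ≤ 0 ∨ 1 ≤ x → ψ j x = 0) {N i : ℕ} (hi : i < N)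
    {y : ℝ} (hy : y ∈ slot i) : psum ψ N y = ψ i (y - i) := by
  unfold psum
  refine Finset.sum_eq_single i (fun j _ hji => h0 j _ ?_) (fun h => ?_)
  · rcases lt_or_gt_of_ne hji with h | h
    · right
      have h1 : (j : ℝ) + 1 ≤ i := by exact_mod_cast h
      have := hy.1
      linarith
    · left
      have h1 : (i : ℝ) + 1 ≤ j := by exact_mod_cast h
      have := hy.2
      linarith
  · exact absurd (Finset.mem_range.mpr hi) h

lemma psum_zero (ψ : ℕ → ℝ → ℝ) (h0 : ∀ j x, x ≤ 0 ∨ 1 ≤ x → ψ j x = 0) {N : ℕ}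
    {y : ℝ} (hy : ∀ i, y ∉ slot i) : psum ψ N y = 0 := by
  unfold psum
  refine Finset.sum_eq_zero (fun j _ => h0 j _ ?_)
  have hx := hy j
  simp only [slot, mem_Ioo, not_and_or, not_lt] at hx
  rcases hx with hx | hx
  · left; linarith
  · right; linarith

lemma psum_bound (ψ : ℕ → ℝ → ℝ) (h0 : ∀ j x, x ≤ 0 ∨ 1 ≤ x → ψ j x = 0) {M : ℝ} (hM : 0 ≤ M)
    (hb : ∀ j x, |ψ j x| ≤ M * (1 / 4) ^ j) (N : ℕ) (y : ℝ) (hyN : y < N) :
    |psum ψ N y| ≤ 2 * M / (1 + y ^ 2) := by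
  by_cases hy : ∃ i, y ∈ slot i
  · obtain ⟨i, hi⟩ := hy
    have hiN : i < N := by
      have : (i : ℝ) < N := hi.1.trans hyN
      exact_mod_cast this
    rw [psum_eq ψ h0 hiN hi]
    refine (hb i _).trans ?_
    rw [le_div_iff₀ (by positivity)]
    have h1 : ∀ i : ℕ, 1 + ((i : ℝ) + 1) ^ 2 ≤ 2 * 4 ^ i := by
      intro i
      induction i with
      | zero => norm_num
      | succ k ih =>
        have h4 : (4 : ℝ) ^ (k + 1) = 4 ^ k * 4 := pow_succ _ _
        rw [h4]; push_cast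
        nlinarith [sq_nonneg (k : ℝ), (Nat.cast_nonneg k : (0:ℝ) ≤ k)]
    have h2 : y ^ 2 ≤ ((i : ℝ) + 1) ^ 2 := by
      have h3 : 0 ≤ y := (Nat.cast_nonneg i).trans hi.1.le
      exact pow_le_pow_left₀ h3 hi.2.le 2
    have h4 : M * (1 / 4) ^ i * (1 + y ^ 2) ≤ M * (1 / 4) ^ i * (2 * 4 ^ i) := by
      have h5 : 0 ≤ M * (1 / 4) ^ i := by positivity
      exact mul_le_mul_of_nonneg_left (by linarith [h1 i]) h5
    have h6 : M * (1 / 4) ^ i * (2 * 4 ^ i) = 2 * M := by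
      have : ((1 : ℝ) / 4) ^ i * 4 ^ i = 1 := by rw [← mul_pow]; norm_num
      calc M * (1 / 4) ^ i * (2 * 4 ^ i) = 2 * M * ((1 / 4) ^ i * 4 ^ i) := by ring
        _ = _ := by rw [this, mul_one]
    linarith
  · push Not at hy
    rw [psum_zero ψ h0 hy, abs_zero]
    positivity

lemma gl_eq {g : ℕ → Equiv.Perm ℝ} (hs : ∀ j, SuppIn 0 1 (g j)) (N : ℕ) (y : ℝ) (hyN : y < N) :
    gl g y = y + psum (fun j x => g j x - x) N y := by
  have h0 : ∀ j x, x ≤ 0 ∨ 1 ≤ x → (fun j x => g j x - x) j x = 0 := by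
    intro j x hx
    show g j x - x = 0
    rw [hs j x hx, sub_self]
  by_cases hy : ∃ i, y ∈ slot i
  · obtain ⟨i, hi⟩ := hy
    have hiN : i < N := by
      have : (i : ℝ) < N := hi.1.trans hyN
      exact_mod_cast this
    rw [psum_eq _ h0 hiN hi]
    unfold gl
    rw [glue_mem (slot_glb hs) hi, shf_apply]
    ring
  · push Not at hy
    rw [psum_zero _ h0 hy]
    unfold gl
    rw [glue_not_mem (slot_glb hs) hy, add_zero]

lemma psum_hasDerivAt {ψ ψ' : ℕ → ℝ → ℝ} (h : ∀ j x, HasDerivAt (ψ j) (ψ' j x) x) (N : ℕ) (y : ℝ) :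
    HasDerivAt (psum ψ N) (psum ψ' N y) y := by
  unfold psum
  refine HasDerivAt.fun_sum (fun j _ => ?_)
  have h1 : HasDerivAt (fun y : ℝ => y - j) 1 y := (hasDerivAt_id y).sub_const _
  have h2 := (h j (y - j)).comp y h1
  rw [mul_one] at h2
  exact h2

lemma gl_c2 {g : ℕ → Equiv.Perm ℝ} (hs : ∀ j, SuppIn 0 1 (g j)) {M : ℝ} (hM : 0 ≤ M)
    (hc : ∀ j, C2S (M * (1 / 4) ^ j) (g j)) :
    (∀ y ≤ 0, gl g y = y) ∧ ContDiff ℝ 2 (gl g) ∧
      ∀ y, |gl g y - y| ≤ 2 * M / (1 + y ^ 2) ∧ |deriv (gl g) y - 1| ≤ 2 * M / (1 + y ^ 2) ∧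
        |deriv (deriv (gl g)) y| ≤ 2 * M / (1 + y ^ 2) := by
  set ψ0 : ℕ → ℝ → ℝ := fun j x => g j x - x with hψ0
  set ψ1 : ℕ → ℝ → ℝ := fun j x => deriv (g j) x - 1 with hψ1
  set ψ2 : ℕ → ℝ → ℝ := fun j x => deriv (deriv (g j)) x with hψ2
  have d0 : ∀ j x, HasDerivAt (ψ0 j) (ψ1 j x) x := fun j x =>
    (c2_d1 (hc j).1 x).sub (hasDerivAt_id x)
  have d1 : ∀ j x, HasDerivAt (ψ1 j) (ψ2 j x) x := fun j x =>
    (c2_d2 (hc j).1 x).sub_const 1
  have z0 : ∀ j x, x ≤ 0 ∨ 1 ≤ x → ψ0 j x = 0 := by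
    intro j x hx
    show g j x - x = 0
    rw [hs j x hx, sub_self]
  have z1 : ∀ j x, x ≤ 0 ∨ 1 ≤ x → ψ1 j x = 0 := by
    intro j x hx
    show deriv (g j) x - 1 = 0
    rw [piece_d1 (hs j) (hc j).1 x hx, sub_self]
  have z2 : ∀ j x, x ≤ 0 ∨ 1 ≤ x → ψ2 j x = 0 := by
    intro j x hx
    exact piece_d2 (hs j) (hc j).1 x hx
  have hev : ∀ (N : ℕ) (y : ℝ), y < N → (gl g : ℝ → ℝ) =ᶠ[𝓝 y] fun z => z + psum ψ0 N z := by
    intro N y hy
    filter_upwards [gt_mem_nhds hy] with z hz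
    exact gl_eq hs N z hz
  have hd1 : ∀ (N : ℕ) (y : ℝ), y < N → HasDerivAt (gl g) (1 + psum ψ1 N y) y := by
    intro N y hy
    exact ((hasDerivAt_id y).add (psum_hasDerivAt d0 N y)).congr_of_eventuallyEq (hev N y hy)
  have hd1e : ∀ (N : ℕ) (y : ℝ), y < N → deriv (gl g) =ᶠ[𝓝 y] fun z => 1 + psum ψ1 N z := by
    intro N y hy
    filter_upwards [gt_mem_nhds hy] with z hz
    exact (hd1 N z hz).deriv
  have hd2 : ∀ (N : ℕ) (y : ℝ), y < N → HasDerivAt (deriv (gl g)) (psum ψ2 N y) y := by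
    intro N y hy
    exact ((psum_hasDerivAt d1 N y).const_add 1).congr_of_eventuallyEq (hd1e N y hy)
  have hd2e : ∀ (N : ℕ) (y : ℝ), y < N → deriv (deriv (gl g)) =ᶠ[𝓝 y] psum ψ2 N := by
    intro N y hy
    filter_upwards [gt_mem_nhds hy] with z hz
    exact (hd2 N z hz).deriv
  have hN : ∀ y : ℝ, ∃ N : ℕ, y < N := fun y => exists_nat_gt y
  have hψ2c : ∀ N, Continuous (psum ψ2 N) := by
    intro N
    unfold psum
    refine continuous_finsetSum _ (fun j _ => ?_)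
    exact (((c2_cd1 (hc j).1).continuous_deriv (by norm_num))).comp (continuous_id.sub continuous_const)
  refine ⟨?_, ?_, ?_⟩
  · intro y hy
    unfold gl
    refine glue_not_mem (slot_glb hs) (fun i hi => ?_)
    have h1 := hi.1
    have h2 : (0 : ℝ) ≤ i := Nat.cast_nonneg i
    linarith
  · have h2 : ContDiff ℝ (1 + 1) (gl g) := by
      rw [contDiff_succ_iff_deriv]
      refine ⟨fun y => ?_, by simp, ?_⟩
      · obtain ⟨N, hN⟩ := hN y
        exact (hd1 N y hN).differentiableAt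
      · rw [contDiff_one_iff_deriv]
        refine ⟨fun y => ?_, ?_⟩
        · obtain ⟨N, hN⟩ := hN y
          exact (hd2 N y hN).differentiableAt
        · rw [continuous_iff_continuousAt]
          intro y
          obtain ⟨N, hN⟩ := hN y
          exact (hψ2c N).continuousAt.congr (hd2e N y hN).symm
    norm_num at h2
    exact h2
  · intro y
    obtain ⟨N, hN⟩ := hN y
    refine ⟨?_, ?_, ?_⟩
    · rw [gl_eq hs N y hN]
      have : y + psum ψ0 N y - y = psum ψ0 N y := by ring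
      rw [this]
      exact psum_bound ψ0 z0 hM (fun j x => ((hc j).2 x).1) N y hN
    · rw [(hd1 N y hN).deriv]
      have : 1 + psum ψ1 N y - 1 = psum ψ1 N y := by ring
      rw [this]
      exact psum_bound ψ1 z1 hM (fun j x => ((hc j).2 x).2.1) N y hN
    · rw [(hd2 N y hN).deriv]
      exact psum_bound ψ2 z2 hM (fun j x => ((hc j).2 x).2.2) N y hN

/-! ### from `SZ` to `C2S` -/

lemma sz_c2s {s : Equiv.Perm ℝ} {l ℓ e : ℝ} (hℓ : 0 < ℓ) (hℓ1 : ℓ ≤ 1) (he : 0 ≤ e)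
    (h : SZ 4 l ℓ e s) : C2S (e / ℓ) s := by
  unfold SZ at h
  set ψ : ℝ → ℝ := fun x => (s (l + ℓ * x) - (l + ℓ * x)) / ℓ with hψ
  obtain ⟨b0, c0, b1, c1, b2, c2, -⟩ := h
  have he1 : e ≤ e / ℓ := by rw [le_div_iff₀ hℓ]; nlinarith
  have hseq : (s : ℝ → ℝ) = fun x => x + ℓ * ψ ((x - l) / ℓ) := by
    funext x
    rw [hψ]
    have h1 : l + ℓ * ((x - l) / ℓ) = x := by field_simp; ring
    simp only [h1]
    field_simp
    ring
  have hin : ∀ x : ℝ, HasDerivAt (fun x => (x - l) / ℓ) (1 / ℓ) x := fun x =>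
    ((hasDerivAt_id x).sub_const l).div_const ℓ
  have hd1 : ∀ x, HasDerivAt s (1 + deriv ψ ((x - l) / ℓ)) x := by
    intro x
    rw [hseq]
    have h1 := ((c0 ((x - l) / ℓ)).hasDerivAt.comp x (hin x)).const_mul ℓ
    refine ((hasDerivAt_id x).add h1).congr_deriv ?_
    field_simp
  have hde : deriv s = fun x => 1 + deriv ψ ((x - l) / ℓ) := funext fun x => (hd1 x).deriv
  have hd2 : ∀ x, HasDerivAt (deriv s) (deriv (deriv ψ) ((x - l) / ℓ) / ℓ) x := by
    intro x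
    rw [hde]
    have h1 := ((c1 ((x - l) / ℓ)).hasDerivAt.comp x (hin x)).const_add 1
    refine h1.congr_deriv ?_
    ring
  have hdde : deriv (deriv s) = fun x => deriv (deriv ψ) ((x - l) / ℓ) / ℓ :=
    funext fun x => (hd2 x).deriv
  refine ⟨?_, fun x => ⟨?_, ?_, ?_⟩⟩
  · have h2 : ContDiff ℝ (1 + 1) s := by
      rw [contDiff_succ_iff_deriv]
      refine ⟨fun x => (hd1 x).differentiableAt, by simp, ?_⟩
      rw [contDiff_one_iff_deriv]
      refine ⟨fun x => (hd2 x).differentiableAt, ?_⟩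
      rw [hdde]
      exact (c2.continuous.comp (by fun_prop)).div_const ℓ
    norm_num at h2
    exact h2
  · have h1 : s x - x = ℓ * ψ ((x - l) / ℓ) := by rw [hseq]; ring
    rw [h1, abs_mul, abs_of_pos hℓ]
    have h2 := b0 ((x - l) / ℓ)
    calc ℓ * |ψ ((x - l) / ℓ)| ≤ 1 * e := by gcongr
      _ ≤ _ := by linarith
  · rw [hde]
    have : 1 + deriv ψ ((x - l) / ℓ) - 1 = deriv ψ ((x - l) / ℓ) := by ring
    simp only [this]
    exact (b1 _).trans he1
  · rw [hdde]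
    simp only
    rw [abs_div, abs_of_pos hℓ]
    exact div_le_div_of_nonneg_right (b2 _) hℓ.le

/-! ### the recursion -/

/-- lengths of the supports -/
def Ls (n : ℕ) : ℕ → ℝ
  | 0 => 1 / 8
  | j + 1 => 2 * (Ls n j / ((2 ^ j * n : ℕ) : ℝ))

/-- sizes -/
def es (C3 : ℝ) (n : ℕ) (e : ℝ) : ℕ → ℝ
  | 0 => e
  | j + 1 => C3 * es C3 n e j / ((2 ^ j * n : ℕ) : ℝ) ^ 2

variable {C3 e : ℝ} {n : ℕ}

lemma nj_ge (hn : 8 ≤ n) (j : ℕ) : 8 ≤ 2 ^ j * n := by
  have : 1 ≤ 2 ^ j := Nat.one_le_two_pow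
  nlinarith

lemma Ls_pos (hn : 8 ≤ n) (j : ℕ) : 0 < Ls n j := by
  induction j with
  | zero => norm_num [Ls]
  | succ j ih =>
    have : (0 : ℝ) < ((2 ^ j * n : ℕ) : ℝ) := by
      have := nj_ge hn j
      exact_mod_cast (by omega : 0 < 2 ^ j * n)
    simp only [Ls]; positivity

lemma Ls_succ_le (hn : 8 ≤ n) (j : ℕ) : Ls n (j + 1) ≤ Ls n j / 4 := by
  have h8 : (8 : ℝ) ≤ ((2 ^ j * n : ℕ) : ℝ) := by exact_mod_cast nj_ge hn j
  have hL := Ls_pos hn j
  simp only [Ls]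
  rw [← mul_div_assoc, div_le_div_iff₀ (by linarith) (by norm_num)]
  nlinarith

lemma Ls_le (hn : 8 ≤ n) (j : ℕ) : Ls n j ≤ 1 / 8 * (1 / 4) ^ j := by
  induction j with
  | zero => norm_num [Ls]
  | succ j ih =>
    refine (Ls_succ_le hn j).trans ?_
    rw [pow_succ]
    linarith

lemma Ls_le_one (hn : 8 ≤ n) (j : ℕ) : Ls n j ≤ 1 / 8 := by
  refine (Ls_le hn j).trans ?_
  have : ((1 : ℝ) / 4) ^ j ≤ 1 := pow_le_one₀ (by norm_num) (by norm_num)
  linarith

lemma es_nonneg (hC3 : 0 ≤ C3) (he : 0 ≤ e) (j : ℕ) : 0 ≤ es C3 n e j := by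
  induction j with
  | zero => exact he
  | succ j ih => simp only [es]; positivity

lemma Ds_le (hC3 : 0 ≤ C3) (he : 0 ≤ e) (hn : 8 ≤ n) (hn16 : 16 * C3 ≤ n) (j : ℕ) :
    ((2 ^ j * n : ℕ) : ℝ) * es C3 n e j / Ls n j ≤ 8 * (n * e) * (1 / 16) ^ j := by
  induction j with
  | zero => simp [Ls, es]; linarith
  | succ j ih =>
    have hnj : (8 : ℝ) ≤ ((2 ^ j * n : ℕ) : ℝ) := by exact_mod_cast nj_ge hn j
    have hnj0 : (0 : ℝ) < ((2 ^ j * n : ℕ) : ℝ) := by linarith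
    have hL := Ls_pos hn j
    have hE := es_nonneg (n := n) hC3 he j
    have h2 : ((2 ^ (j + 1) * n : ℕ) : ℝ) = 2 * ((2 ^ j * n : ℕ) : ℝ) := by
      push_cast; rw [pow_succ]; ring
    have h1 : ((2 ^ (j + 1) * n : ℕ) : ℝ) * es C3 n e (j + 1) / Ls n (j + 1)
      = (C3 / ((2 ^ j * n : ℕ) : ℝ)) * (((2 ^ j * n : ℕ) : ℝ) * es C3 n e j / Ls n j) := by
      rw [h2]
      simp only [Ls, es]
      field_simp
    have h3 : C3 / ((2 ^ j * n : ℕ) : ℝ) ≤ 1 / 16 := by
      rw [div_le_div_iff₀ hnj0 (by norm_num)]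
      have h4 : (n : ℝ) ≤ ((2 ^ j * n : ℕ) : ℝ) := by
        have : n ≤ 2 ^ j * n := by
          have : 1 ≤ 2 ^ j := Nat.one_le_two_pow
          nlinarith
        exact_mod_cast this
      linarith
    rw [h1, pow_succ]
    have h5 : 0 ≤ ((2 ^ j * n : ℕ) : ℝ) * es C3 n e j / Ls n j := by positivity
    have h6 : 0 ≤ C3 / ((2 ^ j * n : ℕ) : ℝ) := by positivity
    calc C3 / ((2 ^ j * n : ℕ) : ℝ) * (((2 ^ j * n : ℕ) : ℝ) * es C3 n e j / Ls n j)
        ≤ (1 / 16) * (8 * (n * e) * (1 / 16) ^ j) := by gcongr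
      _ = _ := by ring

lemma ne_le (hC3 : 0 ≤ C3) (he : 0 ≤ e) (hn : 8 ≤ n) (hn16 : 16 * C3 ≤ n) (j : ℕ) :
    ((2 ^ j * n : ℕ) : ℝ) * es C3 n e j ≤ n * e := by
  have h1 := Ds_le hC3 he hn hn16 j
  have hL := Ls_pos hn j
  rw [div_le_iff₀ hL] at h1
  refine h1.trans ?_
  have h2 := Ls_le_one hn j
  have h3 : ((1 : ℝ) / 16) ^ j ≤ 1 := pow_le_one₀ (by norm_num) (by norm_num)
  have h4 : 0 ≤ (n : ℝ) * e := by positivity
  have h5 : (0 : ℝ) ≤ (1 / 16) ^ j := by positivity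
  calc 8 * (n * e) * (1 / 16) ^ j * Ls n j ≤ 8 * (n * e) * 1 * (1 / 8) := by gcongr
    _ = _ := by ring

/-- the invariant -/
def PPs (C3 : ℝ) (n : ℕ) (e : ℝ) (j : ℕ) (s : Equiv.Perm ℝ) (l : ℝ) : Prop :=
  SuppIn l (l + Ls n j) s ∧ SZ 4 l (Ls n j) (es C3 n e j) s ∧ 1 / 8 ≤ l ∧ l + 3 * Ls n j ≤ 3 / 4

/-- one step -/
def QQs (C3 : ℝ) (n : ℕ) (e : ℝ) (θ : ℝ → Equiv.Perm ℝ) (j : ℕ) (s a s' : Equiv.Perm ℝ) : Prop :=
  s = comm a (θ (Ls n j / ((2 ^ j * n : ℕ) : ℝ))) * s' ∧ SuppIn 0 1 a ∧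
    C2S (C3 * (((2 ^ j * n : ℕ) : ℝ) * es C3 n e j / Ls n j)) a

lemma seq_exists {α β : Type*} [Inhabited α] [Inhabited β] (P : ℕ → α → Prop) (Q : ℕ → α → β → α → Prop) (x0 : α) (h0 : P 0 x0)
    (hstep : ∀ j x, P j x → ∃ a x', P (j + 1) x' ∧ Q j x a x') :
    ∃ (x : ℕ → α) (a : ℕ → β), x 0 = x0 ∧ (∀ j, P j (x j)) ∧ ∀ j, Q j (x j) (a j) (x (j + 1)) := by
  choose! A X hP hQ using hstep
  let x : ℕ → α := fun j => Nat.rec x0 (fun j y => X j y) j
  have hx : ∀ j, P j (x j) := by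
    intro j
    induction j with
    | zero => exact h0
    | succ j ih => exact hP j (x j) ih
  exact ⟨x, fun j => A j (x j), rfl, hx, fun j => hQ j (x j) (hx j)⟩

theorem chain_of (hR : RollingStmt) : ChainStmt := by
  intro C1 θ hθ
  obtain ⟨C3, c3, hc3, hC3, hroll⟩ := hR C1
  have hC10 : 0 ≤ C1 := by
    have := ((hθ.small 1 (by norm_num)).2 0).1
    rw [abs_one, mul_one] at this
    exact (abs_nonneg _).trans this
  have hC30 : 0 ≤ C3 := by linarith
  refine ⟨2 * (8 * C3 + C1 + 8), c3, ⌈16 * C3⌉₊, hc3, by linarith, ?_⟩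
  intro n e s hn he hne hss hsz
  have hn16 : 16 * C3 ≤ n := (Nat.le_ceil _).trans (by exact_mod_cast hn)
  have hn8 : 8 ≤ n := by
    have : (8 : ℝ) ≤ n := by linarith
    exact_mod_cast this
  have hn0 : (0 : ℝ) < n := by
    have : (8 : ℝ) ≤ n := by exact_mod_cast hn8
    linarith
  have h0 : PPs C3 n e 0 s (1 / 4) := by
    refine ⟨?_, ?_, by norm_num, ?_⟩
    · have : (1 / 4 : ℝ) + Ls n 0 = 3 / 8 := by simp only [Ls]; norm_num
      rw [this]; exact hss
    · exact hsz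
    · simp only [Ls]; norm_num
  have hstep : ∀ (j : ℕ) (x : Equiv.Perm ℝ × ℝ), PPs C3 n e j x.1 x.2 →
      ∃ (a : Equiv.Perm ℝ) (x' : Equiv.Perm ℝ × ℝ), PPs C3 n e (j + 1) x'.1 x'.2 ∧
        QQs C3 n e θ j x.1 a x'.1 := by
    rintro j ⟨sj, l⟩ ⟨p1, p2, p3, p4⟩
    simp only at p1 p2 p3 p4
    have hL := Ls_pos hn8 j
    have hL1 := Ls_le_one hn8 j
    have hE := es_nonneg (n := n) hC30 he j
    obtain ⟨a, s', l', r1, r2, r3, r4, r5, r6, r7, r8⟩ :=
      hroll (1 / 8) (3 / 4) 0 1 θ hθ (by norm_num) (by norm_num) l (Ls n j) (es C3 n e j) (2 ^ j * n) sj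
        p3 p4 hL (by linarith) (nj_ge hn8 j) hE ((ne_le hC30 he hn8 hn16 j).trans hne) p1 p2
    have hLs : 2 * (Ls n j / ((2 ^ j * n : ℕ) : ℝ)) = Ls n (j + 1) := rfl
    have hes : C3 * es C3 n e j / ((2 ^ j * n : ℕ) : ℝ) ^ 2 = es C3 n e (j + 1) := rfl
    rw [hLs] at r6 r7 r8
    rw [hes] at r8
    have hLs4 := Ls_succ_le hn8 j
    refine ⟨a, (s', l'), ⟨r7, r8, ?_, ?_⟩, r1, r2, r3, fun x => ?_⟩
    · show 1 / 8 ≤ l'
      linarith
    · show l' + 3 * Ls n (j + 1) ≤ 3 / 4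
      linarith
    · obtain ⟨b0, b1, b2⟩ := r4 x
      have hX : 0 ≤ C3 * (((2 ^ j * n : ℕ) : ℝ) * es C3 n e j) := by positivity
      have e1 : C3 * (((2 ^ j * n : ℕ) : ℝ) * es C3 n e j) ≤
          C3 * (((2 ^ j * n : ℕ) : ℝ) * es C3 n e j / Ls n j) := by
        have : ((2 ^ j * n : ℕ) : ℝ) * es C3 n e j ≤ ((2 ^ j * n : ℕ) : ℝ) * es C3 n e j / Ls n j := by
          rw [le_div_iff₀ hL]
          have : 0 ≤ ((2 ^ j * n : ℕ) : ℝ) * es C3 n e j := by positivity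
          nlinarith
        exact mul_le_mul_of_nonneg_left this hC30
      refine ⟨b0.trans ?_, b1.trans e1, b2.trans (le_of_eq (by ring))⟩
      refine le_trans ?_ e1
      nlinarith
  obtain ⟨x, a, hx0, hP, hQ⟩ := seq_exists (fun j (x : Equiv.Perm ℝ × ℝ) => PPs C3 n e j x.1 x.2)
    (fun j x a x' => QQs C3 n e θ j x.1 a x'.1) (s, 1 / 4) h0 hstep
  -- pieces
  set t : ℕ → Equiv.Perm ℝ := fun j => θ (Ls n j / ((2 ^ j * n : ℕ) : ℝ)) with ht
  set S : ℕ → Equiv.Perm ℝ := fun j => (x j).1 with hS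
  have hSsupp : ∀ j, SuppIn 0 1 (S j) := by
    intro j y hy
    obtain ⟨p1, p2, p3, p4⟩ := hP j
    have hL := Ls_pos hn8 j
    refine p1 y ?_
    rcases hy with hy | hy
    · left; linarith
    · right; linarith
  have hasupp : ∀ j, SuppIn 0 1 (a j) := fun j => (hQ j).2.1
  have htsupp : ∀ j, SuppIn 0 1 (t j) := fun j => hθ.supp _
  set M : ℝ := (8 * C3 + C1 + 8) * (n * e + 1 / n) with hM
  have hne0 : 0 ≤ (n : ℝ) * e := by positivity
  have hninv : 0 ≤ 1 / (n : ℝ) := by positivity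
  have hM0 : 0 ≤ M := by positivity
  have hpow : ∀ j : ℕ, ((1 : ℝ) / 16) ^ j ≤ (1 / 4) ^ j := fun j =>
    pow_le_pow_left₀ (by norm_num) (by norm_num) j
  have hM1 : 8 * C3 * (n * e) ≤ M := by
    rw [hM]
    have h1 : 0 ≤ (C1 + 8) * (n * e + 1 / n) + 8 * C3 * (1 / n) := by positivity
    nlinarith
  have hM2 : C1 * (1 / n) ≤ M := by
    rw [hM]
    have h1 : 0 ≤ (8 * C3 + 8) * (n * e + 1 / n) + C1 * (n * e) := by positivity
    nlinarith
  have hM3 : 8 * (n * e) ≤ M := by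
    rw [hM]
    have h1 : 0 ≤ (8 * C3 + C1) * (n * e + 1 / n) + 8 * (1 / n) := by positivity
    nlinarith
  have hac : ∀ j, C2S (M * (1 / 4) ^ j) (a j) := by
    intro j
    refine (hQ j).2.2.mono ?_
    calc C3 * (((2 ^ j * n : ℕ) : ℝ) * es C3 n e j / Ls n j)
        ≤ C3 * (8 * (n * e) * (1 / 16) ^ j) := by
          gcongr; exact Ds_le hC30 he hn8 hn16 j
      _ = 8 * C3 * (n * e) * (1 / 16) ^ j := by ring
      _ ≤ M * (1 / 4) ^ j := mul_le_mul hM1 (hpow j) (by positivity) hM0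
  have htc : ∀ j, C2S (M * (1 / 4) ^ j) (t j) := by
    intro j
    have hL := Ls_pos hn8 j
    have hnj : (8 : ℝ) ≤ ((2 ^ j * n : ℕ) : ℝ) := by exact_mod_cast nj_ge hn8 j
    have hnj1 : (n : ℝ) ≤ ((2 ^ j * n : ℕ) : ℝ) := by
      have : n ≤ 2 ^ j * n := by
        have : 1 ≤ 2 ^ j := Nat.one_le_two_pow
        nlinarith
      exact_mod_cast this
    have hq : 0 ≤ Ls n j / ((2 ^ j * n : ℕ) : ℝ) := by positivity
    have hq1 : Ls n j / ((2 ^ j * n : ℕ) : ℝ) ≤ (1 / 4) ^ j * (1 / n) := by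
      rw [div_eq_mul_one_div]
      refine mul_le_mul ((Ls_le hn8 j).trans ?_) ?_ (by positivity) (by positivity)
      · have : (0 : ℝ) ≤ (1 / 4) ^ j := by positivity
        linarith
      · exact one_div_le_one_div_of_le hn0 hnj1
    have hq2 : Ls n j / ((2 ^ j * n : ℕ) : ℝ) ≤ 1 := by
      rw [div_le_one (by linarith)]
      have := Ls_le_one hn8 j
      linarith
    refine (hθ.small _ (by rw [abs_of_nonneg hq]; exact hq2)).mono ?_
    rw [abs_of_nonneg hq]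
    calc C1 * (Ls n j / ((2 ^ j * n : ℕ) : ℝ)) ≤ C1 * ((1 / 4) ^ j * (1 / n)) := by gcongr
      _ = C1 * (1 / n) * (1 / 4) ^ j := by ring
      _ ≤ M * (1 / 4) ^ j := by gcongr
  have hSc : ∀ j, C2S (M * (1 / 4) ^ j) (S (j + 1)) := by
    intro j
    obtain ⟨p1, p2, p3, p4⟩ := hP (j + 1)
    have hL := Ls_pos hn8 (j + 1)
    have hL1 := Ls_le_one hn8 (j + 1)
    have hE := es_nonneg (n := n) hC30 he (j + 1)
    refine (sz_c2s hL (by linarith) hE p2).mono ?_
    have h1 := Ds_le hC30 he hn8 hn16 (j + 1)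
    have h2 : es C3 n e (j + 1) / Ls n (j + 1) ≤
        ((2 ^ (j + 1) * n : ℕ) : ℝ) * es C3 n e (j + 1) / Ls n (j + 1) := by
      have h3 : (1 : ℝ) ≤ ((2 ^ (j + 1) * n : ℕ) : ℝ) := by
        have h4 : (8 : ℝ) ≤ ((2 ^ (j + 1) * n : ℕ) : ℝ) := by exact_mod_cast nj_ge hn8 (j + 1)
        linarith
      refine div_le_div_of_nonneg_right ?_ hL.le
      nlinarith
    refine h2.trans (h1.trans ?_)
    refine mul_le_mul hM3 ?_ (by positivity) hM0
    calc ((1 : ℝ) / 16) ^ (j + 1) ≤ (1 / 4) ^ (j + 1) := hpow _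
      _ ≤ (1 / 4) ^ j := pow_le_pow_of_le_one (by norm_num) (by norm_num) (Nat.le_succ j)
  -- identities
  have hSt : ∀ j, S j = comm (a j) (t j) * S (j + 1) := fun j => (hQ j).1
  have gA := slot_glb hasupp
  have gT := slot_glb htsupp
  have gR := slot_glb (fun j => hSsupp (j + 1))
  have gC := gA.comm gT
  have gCR := gC.1.mul gR
  have hid : gl S = comm (gl a) (gl t) * gl (fun j => S (j + 1)) := by
    have h1 : gl S = glue slot (fun j => comm (shf j (a j)) (shf j (t j)) * shf j (S (j + 1))) := by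
      unfold gl
      congr 1
      funext j
      rw [hSt j, shf_mul, shf_comm]
    rw [h1, gCR.2, gC.2]
    rfl
  have hid2 : gl S = s * (Equiv.addRight (1 : ℝ) * gl (fun j => S (j + 1)) *
      (Equiv.addRight (1 : ℝ))⁻¹) := by
    refine glue_unique (slot_glb hSsupp) ?_ ?_
    · intro i y hy
      have hyi : y - 1 + 1 = y := by ring
      have happ : (Equiv.addRight (1 : ℝ) * gl (fun j => S (j + 1)) * (Equiv.addRight (1 : ℝ))⁻¹) y
        = gl (fun j => S (j + 1)) (y - 1) + 1 := by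
        simp [Equiv.Perm.mul_apply, sub_eq_add_neg]
      rw [Equiv.Perm.mul_apply, happ, shf_apply]
      cases i with
      | zero =>
        have h1 : gl (fun j => S (j + 1)) (y - 1) = y - 1 := by
          unfold gl
          refine glue_not_mem gR (fun k hk => ?_)
          have h2 := hk.1
          have h3 := hy.2
          have h4 : (0 : ℝ) ≤ k := Nat.cast_nonneg k
          simp only [Nat.cast_zero, zero_add] at h3
          linarith
        have hS0 : S 0 = s := by rw [hS]; simp only [hx0]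
        rw [h1, hyi, hS0]
        simp
      | succ i =>
        have hmem : y - 1 ∈ slot i := by
          have h2 := hy.1
          have h3 := hy.2
          push_cast at h2 h3
          constructor <;> linarith
        have h1 : gl (fun j => S (j + 1)) (y - 1) = S (i + 1) (y - 1 - i) + i := by
          unfold gl
          rw [glue_mem gR hmem, shf_apply]
        have h5 : y - ((i + 1 : ℕ) : ℝ) = y - 1 - i := by push_cast; ring
        rw [h1, h5]
        have h6 : S (i + 1) (y - 1 - i) + i + 1 = S (i + 1) (y - 1 - i) + ((i + 1 : ℕ) : ℝ) := by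
          push_cast; ring
        rw [h6]
        refine hss _ (Or.inr ?_)
        -- image stays in the slot
        have h7 : S (i + 1) (y - 1 - i) ∈ Ioo (0 : ℝ) 1 := by
          refine perm_maps (K := Ioo (0 : ℝ) 1) (fun z hz => hSsupp (i + 1) z ?_) ?_
          · rw [mem_Ioo, not_and_or, not_lt, not_lt] at hz; exact hz
          · have h8 := hmem.1
            have h9 := hmem.2
            constructor <;> linarith
        have h10 : (1 : ℝ) ≤ ((i + 1 : ℕ) : ℝ) := by push_cast; linarith [(Nat.cast_nonneg i : (0:ℝ) ≤ i)]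
        linarith [h7.1]
    · intro y hy
      have happ : (Equiv.addRight (1 : ℝ) * gl (fun j => S (j + 1)) * (Equiv.addRight (1 : ℝ))⁻¹) y
        = gl (fun j => S (j + 1)) (y - 1) + 1 := by
        simp [Equiv.Perm.mul_apply, sub_eq_add_neg]
      rw [Equiv.Perm.mul_apply, happ]
      have h1 : gl (fun j => S (j + 1)) (y - 1) = y - 1 := by
        unfold gl
        refine glue_not_mem gR (fun k hk => hy (k + 1) ?_)
        have h2 := hk.1
        have h3 := hk.2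
        constructor <;> push_cast <;> linarith
      rw [h1]
      have h2 : y - 1 + 1 = y := by ring
      rw [h2]
      refine hss y ?_
      have h3 := hy 0
      simp only [slot, mem_Ioo, not_and_or, not_lt, Nat.cast_zero, zero_add] at h3
      rcases h3 with h3 | h3
      · left; linarith
      · right; linarith
  refine ⟨gl a, gl t, gl (fun j => S (j + 1)), ?_, ?_⟩
  · have h1 : s * (Equiv.addRight (1 : ℝ) * gl (fun j => S (j + 1)) * (Equiv.addRight (1 : ℝ))⁻¹) =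
      comm (gl a) (gl t) * gl (fun j => S (j + 1)) := by rw [← hid2, hid]
    have h2 : s = comm (gl a) (gl t) * gl (fun j => S (j + 1)) *
      (Equiv.addRight (1 : ℝ) * gl (fun j => S (j + 1)) * (Equiv.addRight (1 : ℝ))⁻¹)⁻¹ := by
      rw [← h1, mul_inv_cancel_right]
    rw [h2]
    unfold comm
    group
  · have hconv : ∀ y : ℝ, 2 * M / (1 + y ^ 2) = 2 * (8 * C3 + C1 + 8) * (n * e + 1 / n) / (1 + y ^ 2) := by
      intro y; rw [hM]; ring
    intro f hf
    rcases hf with rfl | rfl | rfl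
    · have := gl_c2 hasupp hM0 hac
      simp only [hconv] at this
      exact this
    · have := gl_c2 htsupp hM0 htc
      simp only [hconv] at this
      exact this
    · have := gl_c2 (fun j => hSsupp (j + 1)) hM0 hSc
      simp only [hconv] at this
      exact this

end

end Pool.Agent.Germ
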