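import Pool.Agent.Helper19.Germ.Defs

/-!
# End coordinate, part A: the weight functions (R4 of MP_91c48b_an)
-/

open Filter Topology Set MeasureTheory

namespace Pool.Agent.Germ.EndC

noncomputable section

/-- positive part -/
def pp (x : ℝ) : ℝ := max x 0

lemma pp_nonneg (x : ℝ) : 0 ≤ pp x := le_max_right _ _
lemma le_pp (x : ℝ) : x ≤ pp x := le_max_left _ _
lemma pp_of_nonneg {x : ℝ} (h : 0 ≤ x) : pp x = x := max_eq_left h
lemma pp_of_nonpos {x : ℝ} (h : x ≤ 0) : pp x = 0 := max_eq_right h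
lemma pp_le_abs (x : ℝ) : pp x ≤ |x| := max_le (le_abs_self x) (abs_nonneg x)

lemma pp_continuous : Continuous pp := continuous_id.max continuous_const

lemma pp_hasDerivAt_ne (n : ℕ) (y : ℝ) (hy : y ≠ 0) :
    HasDerivAt (fun x => pp x ^ (n + 2)) ((n + 2) * pp y ^ (n + 1)) y := by
  rcases lt_or_gt_of_ne hy with h | h
  · have h1 : (fun x => pp x ^ (n + 2)) =ᶠ[𝓝 y] fun _ => 0 := by
      filter_upwards [gt_mem_nhds h] with z hz
      rw [pp_of_nonpos (le_of_lt hz)]; simp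
    have h2 : ((n : ℝ) + 2) * pp y ^ (n + 1) = 0 := by rw [pp_of_nonpos h.le]; simp
    rw [h2]
    exact (hasDerivAt_const y (0 : ℝ)).congr_of_eventuallyEq h1
  · have h1 : (fun x => pp x ^ (n + 2)) =ᶠ[𝓝 y] fun x => x ^ (n + 2) := by
      filter_upwards [lt_mem_nhds h] with z hz
      rw [pp_of_nonneg (le_of_lt hz)]
    have h2 := hasDerivAt_pow (n + 2) y
    rw [pp_of_nonneg h.le]
    refine (h2.congr_of_eventuallyEq h1).congr_deriv ?_
    push_cast; simp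

lemma pp_hasDerivAt (n : ℕ) (x : ℝ) :
    HasDerivAt (fun x => pp x ^ (n + 2)) ((n + 2) * pp x ^ (n + 1)) x := by
  by_cases hx : x = 0
  · subst hx
    exact hasDerivAt_of_hasDerivAt_of_ne (f := fun x => pp x ^ (n + 2))
      (g := fun x => ((n : ℝ) + 2) * pp x ^ (n + 1)) (x := 0)
      (fun y hy => pp_hasDerivAt_ne n y hy) (pp_continuous.pow _).continuousAt
      (continuous_const.mul (pp_continuous.pow _)).continuousAt
  · exact pp_hasDerivAt_ne n x hx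

/-- parameters: `λ = 1` on `[a,b]` -/
structure Par where
  K : ℝ
  L : ℝ
  a : ℝ
  b : ℝ
  hK : 0 < K
  hL : 0 < L
  hab : a < b

variable (p : Par)

def X (w : ℝ) : ℝ := p.K * pp (w - p.b)
def Y (w : ℝ) : ℝ := p.L * pp (p.a - w)

lemma X_nonneg (w : ℝ) : 0 ≤ X p w := mul_nonneg p.hK.le (pp_nonneg _)
lemma Y_nonneg (w : ℝ) : 0 ≤ Y p w := mul_nonneg p.hL.le (pp_nonneg _)

def P (w : ℝ) : ℝ := 1 + X p w ^ 4 + Y p w ^ 4
def P1 (w : ℝ) : ℝ := 4 * p.K * X p w ^ 3 - 4 * p.L * Y p w ^ 3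
def P2 (w : ℝ) : ℝ := 12 * p.K ^ 2 * X p w ^ 2 + 12 * p.L ^ 2 * Y p w ^ 2

lemma P_ge_one (w : ℝ) : 1 ≤ P p w := by
  have h1 := pow_nonneg (X_nonneg p w) 4
  have h2 := pow_nonneg (Y_nonneg p w) 4
  unfold P; linarith

lemma P_pos (w : ℝ) : 0 < P p w := lt_of_lt_of_le one_pos (P_ge_one p w)

lemma X_hasDerivAt (n : ℕ) (w : ℝ) :
    HasDerivAt (fun w => X p w ^ (n + 2)) ((n + 2) * p.K * X p w ^ (n + 1)) w := by
  have h1 := (pp_hasDerivAt n (w - p.b)).comp w ((hasDerivAt_id w).sub_const p.b)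
  have h2 := h1.const_mul (p.K ^ (n + 2))
  have h3 : (fun w => X p w ^ (n + 2)) = fun w => p.K ^ (n + 2) * ((fun x => pp x ^ (n + 2)) ∘ fun w => w - p.b) w := by
    funext w; simp [X, mul_pow]
  rw [h3]
  refine h2.congr_deriv ?_
  simp only [X, mul_pow]
  ring

lemma Y_hasDerivAt (n : ℕ) (w : ℝ) :
    HasDerivAt (fun w => Y p w ^ (n + 2)) (-((n + 2) * p.L * Y p w ^ (n + 1))) w := by
  have h1 := (pp_hasDerivAt n (p.a - w)).comp w ((hasDerivAt_id w).const_sub p.a)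
  have h2 := h1.const_mul (p.L ^ (n + 2))
  have h3 : (fun w => Y p w ^ (n + 2)) = fun w => p.L ^ (n + 2) * ((fun x => pp x ^ (n + 2)) ∘ fun w => p.a - w) w := by
    funext w; simp [Y, mul_pow]
  rw [h3]
  refine h2.congr_deriv ?_
  simp only [Y, mul_pow]
  ring

lemma P_hasDerivAt (w : ℝ) : HasDerivAt (P p) (P1 p w) w := by
  have h1 := ((X_hasDerivAt p 2 w).const_add 1).add (Y_hasDerivAt p 2 w)
  refine (h1.congr_of_eventuallyEq ?_).congr_deriv ?_
  · filter_upwards with x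
    simp [P]
  · simp only [P1]; push_cast; ring

lemma P1_hasDerivAt (w : ℝ) : HasDerivAt (P1 p) (P2 p w) w := by
  have h1 := ((X_hasDerivAt p 1 w).const_mul (4 * p.K)).sub ((Y_hasDerivAt p 1 w).const_mul (4 * p.L))
  refine (h1.congr_of_eventuallyEq ?_).congr_deriv ?_
  · filter_upwards with x
    simp [P1]
  · simp only [P2]; push_cast; ring

/-- `r = P^{1/8}` -/
def r (w : ℝ) : ℝ := P p w ^ (1 / 8 : ℝ)

lemma r_pos (w : ℝ) : 0 < r p w := Real.rpow_pos_of_pos (P_pos p w) _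
lemma r_ge_one (w : ℝ) : 1 ≤ r p w := Real.one_le_rpow (P_ge_one p w) (by norm_num)

lemma r_pow8 (w : ℝ) : r p w ^ 8 = P p w := by
  unfold r
  rw [← Real.rpow_natCast, ← Real.rpow_mul (P_pos p w).le]
  norm_num

lemma r_hasDerivAt (w : ℝ) : HasDerivAt (r p) (P1 p w / (8 * r p w ^ 7)) w := by
  have h1 := (P_hasDerivAt p w).rpow_const (p := (1 / 8 : ℝ)) (Or.inl (P_pos p w).ne')
  refine h1.congr_deriv ?_
  have h2 : P p w ^ ((1 / 8 : ℝ) - 1) = r p w / P p w := by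
    rw [Real.rpow_sub (P_pos p w), Real.rpow_one]; rfl
  rw [h2, ← r_pow8]
  have := (r_pos p w).ne'
  field_simp

lemma X_le (w : ℝ) : X p w ≤ r p w ^ 2 := by
  have h : X p w ^ 4 ≤ (r p w ^ 2) ^ 4 := by
    rw [← pow_mul, r_pow8]
    have h2 := pow_nonneg (Y_nonneg p w) 4
    unfold P; linarith
  exact le_of_pow_le_pow_left₀ (by norm_num) (by have := r_pos p w; positivity) h

lemma Y_le (w : ℝ) : Y p w ≤ r p w ^ 2 := by
  have h : Y p w ^ 4 ≤ (r p w ^ 2) ^ 4 := by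
    rw [← pow_mul, r_pow8]
    have h2 := pow_nonneg (X_nonneg p w) 4
    unfold P; linarith
  exact le_of_pow_le_pow_left₀ (by norm_num) (by have := r_pos p w; positivity) h

lemma P1_le (w : ℝ) : |P1 p w| ≤ 4 * (p.K + p.L) * r p w ^ 6 := by
  have hx := pow_le_pow_left₀ (X_nonneg p w) (X_le p w) 3
  have hy := pow_le_pow_left₀ (Y_nonneg p w) (Y_le p w) 3
  have hx0 := pow_nonneg (X_nonneg p w) 3
  have hy0 := pow_nonneg (Y_nonneg p w) 3
  rw [← pow_mul] at hx hy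
  norm_num at hx hy
  have hK := p.hK
  have hL := p.hL
  have hr6 := pow_pos (r_pos p w) 6
  unfold P1
  rw [abs_le]
  constructor <;> nlinarith [mul_le_mul_of_nonneg_left hx hK.le, mul_le_mul_of_nonneg_left hy hL.le,
    mul_nonneg hK.le hx0, mul_nonneg hL.le hy0, mul_pos hK hr6, mul_pos hL hr6]

lemma P2_le (w : ℝ) : |P2 p w| ≤ 12 * (p.K ^ 2 + p.L ^ 2) * r p w ^ 4 := by
  have hx := pow_le_pow_left₀ (X_nonneg p w) (X_le p w) 2
  have hy := pow_le_pow_left₀ (Y_nonneg p w) (Y_le p w) 2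
  have hx0 := pow_nonneg (X_nonneg p w) 2
  have hy0 := pow_nonneg (Y_nonneg p w) 2
  rw [← pow_mul] at hx hy
  norm_num at hx hy
  have hK := sq_nonneg p.K
  have hL := sq_nonneg p.L
  have hr4 := pow_pos (r_pos p w) 4
  unfold P2
  rw [abs_le]
  constructor <;> nlinarith [mul_le_mul_of_nonneg_left hx hK, mul_le_mul_of_nonneg_left hy hL,
    mul_nonneg hK hx0, mul_nonneg hL hy0, mul_nonneg hK hr4.le, mul_nonneg hL hr4.le]

/-- `λ = P^{-3/8}` -/
def lam (w : ℝ) : ℝ := (r p w ^ 3)⁻¹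

/-- logarithmic derivative of `λ` -/
def l1 (w : ℝ) : ℝ := -(3 / 8) * (P1 p w / P p w)

def l2 (w : ℝ) : ℝ := -(3 / 8) * (P2 p w / P p w - (P1 p w / P p w) ^ 2)

lemma lam_pos (w : ℝ) : 0 < lam p w := by have := r_pos p w; unfold lam; positivity

lemma lam_hasDerivAt (w : ℝ) : HasDerivAt (lam p) (lam p w * l1 p w) w := by
  have h1 := ((r_hasDerivAt p w).pow 3).inv (pow_pos (r_pos p w) 3).ne'
  refine h1.congr_deriv ?_
  have hr := (r_pos p w).ne'
  unfold lam l1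
  simp only [Pi.pow_apply]
  rw [← r_pow8]
  push_cast
  field_simp

lemma l1_hasDerivAt (w : ℝ) : HasDerivAt (l1 p) (l2 p w) w := by
  have h1 := ((P1_hasDerivAt p w).div (P_hasDerivAt p w) (P_pos p w).ne').const_mul (-(3 / 8))
  refine h1.congr_deriv ?_
  have hP := (P_pos p w).ne'
  unfold l2
  field_simp

lemma l1_le (w : ℝ) : |l1 p w| ≤ 2 * (p.K + p.L) / r p w ^ 2 := by
  have hr := r_pos p w
  have h := P1_le p w
  have hK := p.hK
  have hL := p.hL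
  unfold l1
  rw [abs_mul, abs_div, abs_of_pos (P_pos p w), ← r_pow8, abs_neg, abs_of_pos (by norm_num : (0:ℝ) < 3/8),
    ← mul_div_assoc, div_le_div_iff₀ (by positivity) (by positivity)]
  have h2 : 3 / 8 * |P1 p w| ≤ 2 * (p.K + p.L) * r p w ^ 6 := by
    have : 0 ≤ (p.K + p.L) * r p w ^ 6 := by positivity
    nlinarith
  calc 3 / 8 * |P1 p w| * r p w ^ 2 ≤ (2 * (p.K + p.L) * r p w ^ 6) * r p w ^ 2 := by gcongr
    _ = _ := by ring

lemma l2_le (w : ℝ) : |l2 p w| ≤ (5 * (p.K ^ 2 + p.L ^ 2) + 6 * (p.K + p.L) ^ 2) / r p w ^ 4 := by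
  have hr := r_pos p w
  have hr8 : 0 < r p w ^ 8 := by positivity
  have h1 : |P2 p w / P p w| ≤ 12 * (p.K ^ 2 + p.L ^ 2) / r p w ^ 4 := by
    rw [abs_div, abs_of_pos (P_pos p w), ← r_pow8, div_le_div_iff₀ (by positivity) (by positivity)]
    calc |P2 p w| * r p w ^ 4 ≤ (12 * (p.K ^ 2 + p.L ^ 2) * r p w ^ 4) * r p w ^ 4 := by
          gcongr; exact P2_le p w
      _ = _ := by ring
  have h2 : |P1 p w / P p w| ≤ 4 * (p.K + p.L) / r p w ^ 2 := by
    rw [abs_div, abs_of_pos (P_pos p w), ← r_pow8, div_le_div_iff₀ (by positivity) (by positivity)]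
    calc |P1 p w| * r p w ^ 2 ≤ (4 * (p.K + p.L) * r p w ^ 6) * r p w ^ 2 := by
          gcongr; exact P1_le p w
      _ = _ := by ring
  have h3 : (P1 p w / P p w) ^ 2 ≤ (4 * (p.K + p.L) / r p w ^ 2) ^ 2 := by
    rw [← sq_abs (P1 p w / P p w)]
    exact pow_le_pow_left₀ (abs_nonneg _) h2 2
  have h4 : (4 * (p.K + p.L) / r p w ^ 2) ^ 2 = 16 * (p.K + p.L) ^ 2 / r p w ^ 4 := by
    field_simp; ring
  rw [h4] at h3
  unfold l2
  rw [abs_mul, abs_neg, abs_of_pos (by norm_num : (0:ℝ) < 3/8)]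
  have h5 : |P2 p w / P p w - (P1 p w / P p w) ^ 2| ≤ 12 * (p.K ^ 2 + p.L ^ 2) / r p w ^ 4 +
      16 * (p.K + p.L) ^ 2 / r p w ^ 4 := by
    refine (abs_sub _ _).trans ?_
    rw [abs_of_nonneg (sq_nonneg (P1 p w / P p w))]
    linarith
  have h6 : (5 * (p.K ^ 2 + p.L ^ 2) + 6 * (p.K + p.L) ^ 2) / r p w ^ 4 =
    5 / 12 * (12 * (p.K ^ 2 + p.L ^ 2) / r p w ^ 4) + 3 / 8 * (16 * (p.K + p.L) ^ 2 / r p w ^ 4) := by
    field_simp; ring
  rw [h6]
  have h7 : 0 ≤ 12 * (p.K ^ 2 + p.L ^ 2) / r p w ^ 4 := by positivity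
  linarith

end

end Pool.Agent.Germ.EndC
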