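import Pool.Agent.Helper69.Germ.EndA

/-!
# End coordinate, part B: comparisons, extension lemmas, the coordinate
-/

open Filter Topology Set MeasureTheory

namespace Pool.Agent.Germ.EndC

noncomputable section

/-! ### local extension of derivatives -/

lemma hasDerivAt_local {f g : ℝ → ℝ} {x : ℝ} (h : ∀ᶠ y in 𝓝[≠] x, HasDerivAt f (g y) y)
    (hf : ContinuousAt f x) (hg : ContinuousAt g x) : HasDerivAt f (g x) x := by
  have hR : ∀ᶠ y in 𝓝[>] x, HasDerivAt f (g y) y :=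
    h.filter_mono (nhdsWithin_mono x (fun y hy => ne_of_gt hy))
  have hL : ∀ᶠ y in 𝓝[<] x, HasDerivAt f (g y) y :=
    h.filter_mono (nhdsWithin_mono x (fun y hy => ne_of_lt hy))
  have A : HasDerivWithinAt f (g x) (Ici x) x := by
    refine hasDerivWithinAt_Ici_of_tendsto_deriv (s := {y | HasDerivAt f (g y) y})
      (fun y hy => HasDerivAt.differentiableAt hy |>.differentiableWithinAt) hf.continuousWithinAt hR ?_
    have : Tendsto g (𝓝[>] x) (𝓝 (g x)) := tendsto_inf_left hg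
    refine this.congr' ?_
    filter_upwards [hR] with y hy using hy.deriv.symm
  have B : HasDerivWithinAt f (g x) (Iic x) x := by
    refine hasDerivWithinAt_Iic_of_tendsto_deriv (s := {y | HasDerivAt f (g y) y})
      (fun y hy => HasDerivAt.differentiableAt hy |>.differentiableWithinAt) hf.continuousWithinAt hL ?_
    have : Tendsto g (𝓝[<] x) (𝓝 (g x)) := tendsto_inf_left hg
    refine this.congr' ?_
    filter_upwards [hL] with y hy using hy.deriv.symm
  simpa using B.union A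

lemma ext_deriv {α β : ℝ} (hab : α < β) {F G : ℝ → ℝ} (hin : ∀ x ∈ Ioo α β, HasDerivAt F (G x) x)
    (hout : ∀ x, x ∉ Ioo α β → F x = 0 ∧ G x = 0) (hFα : ContinuousAt F α) (hFβ : ContinuousAt F β)
    (hGα : ContinuousAt G α) (hGβ : ContinuousAt G β) (x : ℝ) : HasDerivAt F (G x) x := by
  have hlt : ∀ x, x < α → HasDerivAt F (G x) x := by
    intro x hx
    rw [(hout x (fun h => absurd h.1 (not_lt.mpr hx.le))).2]
    refine (hasDerivAt_const x (0 : ℝ)).congr_of_eventuallyEq ?_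
    filter_upwards [gt_mem_nhds hx] with y hy
    exact (hout y (fun h => absurd h.1 (not_lt.mpr (le_of_lt hy)))).1
  have hgt : ∀ x, β < x → HasDerivAt F (G x) x := by
    intro x hx
    rw [(hout x (fun h => absurd h.2 (not_lt.mpr hx.le))).2]
    refine (hasDerivAt_const x (0 : ℝ)).congr_of_eventuallyEq ?_
    filter_upwards [lt_mem_nhds hx] with y hy
    exact (hout y (fun h => absurd h.2 (not_lt.mpr (le_of_lt hy)))).1
  rcases lt_trichotomy x α with h | h | h
  · exact hlt x h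
  · subst h
    refine hasDerivAt_local ?_ hFα hGα
    rw [eventually_nhdsWithin_iff]
    filter_upwards [gt_mem_nhds hab] with y hy hne
    rcases lt_or_gt_of_ne hne with h | h
    · exact hlt y h
    · exact hin y ⟨h, hy⟩
  · rcases lt_trichotomy x β with h' | h' | h'
    · exact hin x ⟨h, h'⟩
    · subst h'
      refine hasDerivAt_local ?_ hFβ hGβ
      rw [eventually_nhdsWithin_iff]
      filter_upwards [lt_mem_nhds hab] with y hy hne
      rcases lt_or_gt_of_ne hne with h | h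
      · exact hin y ⟨hy, h⟩
      · exact hgt y h
    · exact hgt x h'

/-! ### comparisons -/

variable (p : Par)

lemma exists_W : ∃ C : ℝ, 1 ≤ C ∧ ∀ w, 1 + w ^ 2 ≤ C * r p w ^ 4 ∧ r p w ^ 4 ≤ C * (1 + w ^ 2) := by
  set M : ℝ := |p.a| + |p.b| + 1 / p.K + 1 / p.L with hM
  have hK := p.hK
  have hL := p.hL
  have hM0 : 0 ≤ M := by positivity
  set A : ℝ := 2 * p.K ^ 2 * (1 + p.b ^ 2) with hA
  set B : ℝ := 2 * p.L ^ 2 * (1 + p.a ^ 2) with hB
  have hA0 : 0 ≤ A := by positivity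
  have hB0 : 0 ≤ B := by positivity
  refine ⟨(1 + M ^ 2) + (1 + A + B), by nlinarith [sq_nonneg M], fun w => ⟨?_, ?_⟩⟩
  · have hr := r_ge_one p w
    have hr2 : 1 ≤ r p w ^ 2 := one_le_pow₀ hr
    have h1 : w ≤ p.b + X p w / p.K := by
      have : X p w / p.K = pp (w - p.b) := by unfold X; field_simp
      rw [this]; have := le_pp (w - p.b); linarith
    have h2 : -w ≤ -p.a + Y p w / p.L := by
      have : Y p w / p.L = pp (p.a - w) := by unfold Y; field_simp
      rw [this]; have := le_pp (p.a - w); linarith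
    have h3 : X p w / p.K ≤ (1 / p.K) * r p w ^ 2 := by
      rw [div_eq_mul_inv, mul_comm, ← one_div]
      exact mul_le_mul_of_nonneg_left (X_le p w) (by positivity)
    have h4 : Y p w / p.L ≤ (1 / p.L) * r p w ^ 2 := by
      rw [div_eq_mul_inv, mul_comm, ← one_div]
      exact mul_le_mul_of_nonneg_left (Y_le p w) (by positivity)
    have ha := le_abs_self p.a
    have ha' := neg_abs_le p.a
    have hb := le_abs_self p.b
    have hb' := neg_abs_le p.b
    have ha0 := abs_nonneg p.a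
    have hb0 := abs_nonneg p.b
    have hKi : 0 < 1 / p.K := by positivity
    have hLi : 0 < 1 / p.L := by positivity
    have h5 : |w| ≤ M * r p w ^ 2 := by
      rw [abs_le]
      constructor
      · nlinarith [mul_le_mul_of_nonneg_left hr2 ha0, mul_le_mul_of_nonneg_left hr2 hb0,
          mul_le_mul_of_nonneg_left hr2 hKi.le]
      · nlinarith [mul_le_mul_of_nonneg_left hr2 ha0, mul_le_mul_of_nonneg_left hr2 hb0,
          mul_le_mul_of_nonneg_left hr2 hLi.le]
    have h6 : w ^ 2 ≤ M ^ 2 * r p w ^ 4 := by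
      rw [← sq_abs w]
      calc |w| ^ 2 ≤ (M * r p w ^ 2) ^ 2 := pow_le_pow_left₀ (abs_nonneg _) h5 2
        _ = _ := by ring
    have h7 : 1 ≤ r p w ^ 4 := one_le_pow₀ hr
    nlinarith
  · have hW : 0 < 1 + w ^ 2 := by positivity
    have h1 : X p w ^ 2 ≤ A * (1 + w ^ 2) := by
      have h2 : pp (w - p.b) ^ 2 ≤ (w - p.b) ^ 2 := by
        rw [← sq_abs (w - p.b)]
        exact pow_le_pow_left₀ (pp_nonneg _) (pp_le_abs _) 2
      have h3 : X p w ^ 2 = p.K ^ 2 * pp (w - p.b) ^ 2 := by unfold X; ring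
      rw [h3, hA]
      have h4 : (w - p.b) ^ 2 ≤ 2 * (1 + p.b ^ 2) * (1 + w ^ 2) := by
        nlinarith [sq_nonneg (w + p.b), sq_nonneg (w * p.b)]
      calc p.K ^ 2 * pp (w - p.b) ^ 2 ≤ p.K ^ 2 * (2 * (1 + p.b ^ 2) * (1 + w ^ 2)) := by
            gcongr; exact h2.trans h4
        _ = _ := by ring
    have h1' : Y p w ^ 2 ≤ B * (1 + w ^ 2) := by
      have h2 : pp (p.a - w) ^ 2 ≤ (p.a - w) ^ 2 := by
        rw [← sq_abs (p.a - w)]
        exact pow_le_pow_left₀ (pp_nonneg _) (pp_le_abs _) 2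
      have h3 : Y p w ^ 2 = p.L ^ 2 * pp (p.a - w) ^ 2 := by unfold Y; ring
      rw [h3, hB]
      have h4 : (p.a - w) ^ 2 ≤ 2 * (1 + p.a ^ 2) * (1 + w ^ 2) := by
        nlinarith [sq_nonneg (w + p.a), sq_nonneg (w * p.a)]
      calc p.L ^ 2 * pp (p.a - w) ^ 2 ≤ p.L ^ 2 * (2 * (1 + p.a ^ 2) * (1 + w ^ 2)) := by
            gcongr; exact h2.trans h4
        _ = _ := by ring
    have h5 : (r p w ^ 4) ^ 2 ≤ ((1 + A + B) * (1 + w ^ 2)) ^ 2 := by
      rw [← pow_mul, r_pow8]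
      unfold P
      have h6 : X p w ^ 4 ≤ (A * (1 + w ^ 2)) ^ 2 := by
        calc X p w ^ 4 = (X p w ^ 2) ^ 2 := by ring
          _ ≤ _ := pow_le_pow_left₀ (sq_nonneg _) h1 2
      have h7 : Y p w ^ 4 ≤ (B * (1 + w ^ 2)) ^ 2 := by
        calc Y p w ^ 4 = (Y p w ^ 2) ^ 2 := by ring
          _ ≤ _ := pow_le_pow_left₀ (sq_nonneg _) h1' 2
      have h8 : 1 ≤ (1 + w ^ 2) ^ 2 := one_le_pow₀ (by nlinarith [sq_nonneg w])
      have h9 : ((1 + A + B) * (1 + w ^ 2)) ^ 2 = (1 + w ^ 2) ^ 2 + (A * (1 + w ^ 2)) ^ 2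
        + (B * (1 + w ^ 2)) ^ 2 + (2 * A + 2 * B + 2 * A * B) * (1 + w ^ 2) ^ 2 := by ring
      have h10 : 0 ≤ (2 * A + 2 * B + 2 * A * B) * (1 + w ^ 2) ^ 2 := by positivity
      linarith
    have h11 := le_of_pow_le_pow_left₀ (by norm_num) (by positivity) h5
    nlinarith [sq_nonneg M]

lemma exists_comp : ∃ D : ℝ, 1 ≤ D ∧ ∀ w w', |w' - w| ≤ 1 → r p w ≤ D * r p w' := by
  obtain ⟨C, hC, h⟩ := exists_W p
  refine ⟨3 * C ^ 2, by nlinarith, fun w w' hw => ?_⟩
  have h1 : 1 + w ^ 2 ≤ 3 * (1 + w' ^ 2) := by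
    have h2 := abs_le.mp hw
    nlinarith [sq_nonneg (w' - w), sq_nonneg w', sq_nonneg (w' + (w' - w)), sq_nonneg (w' - (w' - w))]
  have h3 : r p w ^ 4 ≤ (3 * C ^ 2) * r p w' ^ 4 := by
    calc r p w ^ 4 ≤ C * (1 + w ^ 2) := (h w).2
      _ ≤ C * (3 * (1 + w' ^ 2)) := by gcongr
      _ ≤ C * (3 * (C * r p w' ^ 4)) := by gcongr; exact (h w').1
      _ = _ := by ring
  have h4 : (1 : ℝ) ≤ 3 * C ^ 2 := by nlinarith
  have h5 : r p w ^ 4 ≤ ((3 * C ^ 2) * r p w') ^ 4 := by
    rw [mul_pow]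
    refine h3.trans ?_
    have hr := r_pos p w'
    have : 3 * C ^ 2 ≤ (3 * C ^ 2) ^ 4 := le_self_pow₀ h4 (by norm_num)
    gcongr
  exact le_of_pow_le_pow_left₀ (by norm_num) (by have := r_pos p w'; positivity) h5

lemma r_tendsto_aux (N : ℝ) : ∃ M : ℝ, ∀ w, M ≤ |w| → N ≤ r p w := by
  obtain ⟨C, hC, h⟩ := exists_W p
  refine ⟨1 + C * (1 + N ^ 2) ^ 2, fun w hw => ?_⟩
  by_contra hN
  push Not at hN
  have hr := r_pos p w
  have h0 : 0 < N := hr.trans hN
  have h1 : r p w ^ 4 ≤ N ^ 4 := pow_le_pow_left₀ hr.le hN.le 4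
  have h2 := (h w).1
  have h3 : C * r p w ^ 4 ≤ C * N ^ 4 := by gcongr
  have h4 : C * N ^ 4 ≤ C * (1 + N ^ 2) ^ 2 := by
    gcongr
    nlinarith [sq_nonneg N]
  have h5 : |w| ≤ 1 + w ^ 2 := by
    have h6 := sq_abs w
    have h7 := sq_nonneg (|w| - 1)
    have h8 := abs_nonneg w
    nlinarith
  linarith

/-! ### the coordinate -/

lemma lam_continuous : Continuous (lam p) := by
  rw [continuous_iff_continuousAt]
  exact fun w => (lam_hasDerivAt p w).continuousAt

/-- the coordinate `∫_0^w λ` -/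
def Ec (w : ℝ) : ℝ := ∫ t in (0 : ℝ)..w, lam p t

lemma Ec_hasDerivAt (w : ℝ) : HasDerivAt (Ec p) (lam p w) w :=
  intervalIntegral.integral_hasDerivAt_right ((lam_continuous p).intervalIntegrable _ _)
    ((lam_continuous p).stronglyMeasurableAtFilter _ _) (lam_continuous p).continuousAt

lemma Ec_continuous : Continuous (Ec p) := by
  rw [continuous_iff_continuousAt]
  exact fun w => (Ec_hasDerivAt p w).continuousAt

lemma Ec_strictMono : StrictMono (Ec p) :=
  strictMono_of_hasDerivAt_pos (Ec_hasDerivAt p) (lam_pos p)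

lemma lam_le (w : ℝ) : lam p w ≤ 1 := by
  unfold lam
  exact inv_le_one_of_one_le₀ (one_le_pow₀ (r_ge_one p w))

lemma lam_eq_one {w : ℝ} (h1 : p.a ≤ w) (h2 : w ≤ p.b) : lam p w = 1 := by
  have hx : X p w = 0 := by unfold X; rw [pp_of_nonpos (by linarith), mul_zero]
  have hy : Y p w = 0 := by unfold Y; rw [pp_of_nonpos (by linarith), mul_zero]
  have : P p w = 1 := by unfold P; rw [hx, hy]; norm_num
  unfold lam r; rw [this]; simp

lemma Ec_eq (h0 : p.a ≤ 0) (h0' : 0 ≤ p.b) {w : ℝ} (h1 : p.a ≤ w) (h2 : w ≤ p.b) : Ec p w = w := by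
  unfold Ec
  rw [intervalIntegral.integral_congr (g := fun _ => (1 : ℝ))]
  · simp
  · intro t ht
    rcases le_total 0 w with h | h
    · rw [uIcc_of_le h] at ht
      exact lam_eq_one p (h0.trans ht.1) (ht.2.trans h2)
    · rw [uIcc_of_ge h] at ht
      exact lam_eq_one p (h1.trans ht.1) (ht.2.trans h0')

/-- the profile `(1+t⁴)^{-3/8}` -/
def lam0 (t : ℝ) : ℝ := (((1 + t ^ 4) ^ (1 / 8 : ℝ)) ^ 3)⁻¹

lemma lam0_continuous : Continuous lam0 := by
  unfold lam0
  refine Continuous.inv₀ ((Continuous.rpow_const (by fun_prop) (fun x => Or.inr (by norm_num))).pow 3)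
    (fun x => ?_)
  have : 0 < 1 + x ^ 4 := by positivity
  positivity

lemma lam0_pos (t : ℝ) : 0 < lam0 t := by
  unfold lam0
  have : 0 < 1 + t ^ 4 := by positivity
  positivity

lemma lam0_integrable : Integrable lam0 := by
  have h1 : Integrable (fun x : ℝ => ((1 : ℝ) + ‖x‖ ^ 2) ^ (-(3 / 2 : ℝ) / 2)) :=
    integrable_rpow_neg_one_add_norm_sq (by simp; norm_num)
  refine Integrable.mono' (h1.const_mul 2) lam0_continuous.aestronglyMeasurable ?_
  filter_upwards with x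
  rw [Real.norm_eq_abs, abs_of_pos (lam0_pos x), Real.norm_eq_abs, sq_abs]
  unfold lam0
  have hx : 0 < 1 + x ^ 4 := by positivity
  have hx2 : 0 < 1 + x ^ 2 := by positivity
  rw [← Real.rpow_natCast, ← Real.rpow_mul hx.le, ← Real.rpow_neg hx.le]
  norm_num
  have h2 : (1 + x ^ 2) ^ 2 ≤ 2 * (1 + x ^ 4) := by nlinarith [sq_nonneg (x ^ 2 - 1)]
  have h3 : ((1 + x ^ 2) ^ 2 : ℝ) ^ (3 / 8 : ℝ) ≤ (2 * (1 + x ^ 4)) ^ (3 / 8 : ℝ) :=
    Real.rpow_le_rpow (by positivity) h2 (by norm_num)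
  rw [← Real.rpow_natCast, ← Real.rpow_mul hx2.le, Real.mul_rpow (by norm_num) hx.le] at h3
  norm_num at h3
  have h4 : (2 : ℝ) ^ (3 / 8 : ℝ) ≤ 2 := by
    calc (2 : ℝ) ^ (3 / 8 : ℝ) ≤ 2 ^ (1 : ℝ) := Real.rpow_le_rpow_of_exponent_le (by norm_num) (by norm_num)
      _ = 2 := Real.rpow_one 2
  have h5 : 0 < (1 + x ^ 4) ^ (3 / 8 : ℝ) := Real.rpow_pos_of_pos hx _
  have h6 : 0 < (1 + x ^ 2) ^ (3 / 4 : ℝ) := Real.rpow_pos_of_pos hx2 _
  rw [Real.rpow_neg hx.le, Real.rpow_neg hx2.le, ← div_eq_mul_inv, inv_eq_one_div,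
    div_le_div_iff₀ h5 h6]
  nlinarith

/-- `∫_0^∞ (1+t⁴)^{-3/8}` -/
def II : ℝ := ∫ t in Ioi (0 : ℝ), lam0 t

lemma II_pos : 0 < II := by
  unfold II
  rw [setIntegral_pos_iff_support_of_nonneg_ae]
  · have : Function.support lam0 = univ := by
      ext x; simp [(lam0_pos x).ne']
    rw [this]; simp
  · filter_upwards with x using (lam0_pos x).le
  · exact lam0_integrable.integrableOn

lemma lam_eq_right {w : ℝ} (h : p.b ≤ w) : lam p w = lam0 (p.K * (w - p.b)) := by
  have hy : Y p w = 0 := by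
    unfold Y; rw [pp_of_nonpos (by have := p.hab; linarith), mul_zero]
  have hx : X p w = p.K * (w - p.b) := by unfold X; rw [pp_of_nonneg (by linarith)]
  unfold lam r P lam0
  rw [hx, hy]; norm_num

lemma lam_eq_left {w : ℝ} (h : w ≤ p.a) : lam p w = lam0 (p.L * (p.a - w)) := by
  have hx : X p w = 0 := by
    unfold X; rw [pp_of_nonpos (by have := p.hab; linarith), mul_zero]
  have hy : Y p w = p.L * (p.a - w) := by unfold Y; rw [pp_of_nonneg (by linarith)]
  unfold lam r P lam0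
  rw [hx, hy]; norm_num

lemma Ec_tendsto_atTop (h0 : p.a ≤ 0) (h0' : 0 ≤ p.b) :
    Tendsto (Ec p) atTop (𝓝 (p.b + II / p.K)) := by
  have h1 : ∀ w, p.b ≤ w → Ec p w = p.b + (∫ t in (0 : ℝ)..(p.K * (w - p.b)), lam0 t) / p.K := by
    intro w hw
    have h2 : Ec p w = (∫ t in (0 : ℝ)..p.b, lam p t) + ∫ t in p.b..w, lam p t := by
      unfold Ec
      rw [intervalIntegral.integral_add_adjacent_intervals] <;>
        exact (lam_continuous p).intervalIntegrable _ _
    have h3 : ∫ t in (0 : ℝ)..p.b, lam p t = p.b := Ec_eq p h0 h0' p.hab.le le_rfl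
    have h4 : ∫ t in p.b..w, lam p t = ∫ t in p.b..w, lam0 (p.K * (t - p.b)) := by
      refine intervalIntegral.integral_congr (fun t ht => ?_)
      rw [uIcc_of_le hw] at ht
      exact lam_eq_right p ht.1
    have h5 : ∫ t in p.b..w, lam0 (p.K * (t - p.b)) = ∫ t in (0 : ℝ)..(w - p.b), lam0 (p.K * t) := by
      rw [intervalIntegral.integral_comp_sub_right (fun t => lam0 (p.K * t)) p.b, sub_self]
    rw [h2, h3, h4, h5, intervalIntegral.integral_comp_mul_left lam0 p.hK.ne', mul_zero, smul_eq_mul]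
    ring
  have h6 : Tendsto (fun w => ∫ t in (0 : ℝ)..(p.K * (w - p.b)), lam0 t) atTop (𝓝 II) := by
    refine intervalIntegral_tendsto_integral_Ioi 0 lam0_integrable.integrableOn ?_
    exact (tendsto_atTop_add_const_right _ (-p.b) tendsto_id).const_mul_atTop p.hK
  refine ((h6.div_const p.K).const_add p.b).congr' ?_
  filter_upwards [eventually_ge_atTop p.b] with w hw
  rw [h1 w hw]

lemma Ec_tendsto_atBot (h0 : p.a ≤ 0) (h0' : 0 ≤ p.b) :
    Tendsto (Ec p) atBot (𝓝 (p.a - II / p.L)) := by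
  have h1 : ∀ w, w ≤ p.a → Ec p w = p.a - (∫ t in (0 : ℝ)..(p.L * (p.a - w)), lam0 t) / p.L := by
    intro w hw
    have h2 : Ec p w = (∫ t in (0 : ℝ)..p.a, lam p t) + ∫ t in p.a..w, lam p t := by
      unfold Ec
      rw [intervalIntegral.integral_add_adjacent_intervals] <;>
        exact (lam_continuous p).intervalIntegrable _ _
    have h3 : ∫ t in (0 : ℝ)..p.a, lam p t = p.a := Ec_eq p h0 h0' le_rfl p.hab.le
    have h4 : ∫ t in p.a..w, lam p t = ∫ t in p.a..w, lam0 (p.L * (p.a - t)) := by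
      refine intervalIntegral.integral_congr (fun t ht => ?_)
      rw [uIcc_of_ge hw] at ht
      exact lam_eq_left p ht.2
    have h5 : ∫ t in p.a..w, lam0 (p.L * (p.a - t)) = ∫ t in (p.a - w)..0, lam0 (p.L * t) := by
      rw [intervalIntegral.integral_comp_sub_left (fun t => lam0 (p.L * t)) p.a, sub_self]
    rw [h2, h3, h4, h5, intervalIntegral.integral_comp_mul_left lam0 p.hL.ne', mul_zero, smul_eq_mul,
      intervalIntegral.integral_symm]
    ring
  have h6 : Tendsto (fun w => ∫ t in (0 : ℝ)..(p.L * (p.a - w)), lam0 t) atBot (𝓝 II) := by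
    refine intervalIntegral_tendsto_integral_Ioi 0 lam0_integrable.integrableOn ?_
    refine Tendsto.const_mul_atTop p.hL ?_
    exact tendsto_atTop_add_const_left _ _ tendsto_neg_atBot_atTop
  refine ((h6.div_const p.L).const_sub p.a).congr' ?_
  filter_upwards [eventually_le_atBot p.a] with w hw
  rw [h1 w hw]

end

end Pool.Agent.Germ.EndC
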