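import Pool.Agent.Helper69.Germ.EndB

/-!
# End coordinate (R4 of MP_91c48b_an)
-/

open Filter Topology Set MeasureTheory

namespace Pool.Agent.Germ.EndC

noncomputable section

variable (p : Par)

lemma mvt_aux {F F' : ℝ → ℝ} (hF : ∀ x, HasDerivAt F (F' x) x) {w w' B : ℝ} (hw : |w' - w| ≤ 1)
    (hB : ∀ ξ, |ξ - w| ≤ 1 → |F' ξ| ≤ B) : |F w' - F w| ≤ B * |w' - w| := by
  have h := Convex.norm_image_sub_le_of_norm_hasDerivWithin_le (f := F) (f' := F') (C := B)
    (s := Icc (w - 1) (w + 1)) (x := w) (y := w') (fun x _ => (hF x).hasDerivWithinAt)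
    (fun x hx => by
      rw [Real.norm_eq_abs]
      exact hB x (by rw [abs_le]; constructor <;> linarith [hx.1, hx.2]))
    (convex_Icc _ _) (by constructor <;> linarith)
    (by have := abs_le.mp hw; constructor <;> linarith)
  simpa [Real.norm_eq_abs] using h

/-! ### the inverse -/

/-- limits at the ends -/
def βe : ℝ := p.b + II / p.K
def αe : ℝ := p.a - II / p.L

variable (h0 : p.a ≤ 0) (h0' : 0 ≤ p.b)

include h0 h0' in
lemma Ec_mem (w : ℝ) : Ec p w ∈ Ioo (αe p) (βe p) := by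
  constructor
  · have h1 : αe p ≤ Ec p (w - 1) :=
      (Ec_strictMono p).monotone.le_of_tendsto (Ec_tendsto_atBot p h0 h0') (w - 1)
    exact h1.trans_lt (Ec_strictMono p (by linarith))
  · have h1 : Ec p (w + 1) ≤ βe p :=
      (Ec_strictMono p).monotone.ge_of_tendsto (Ec_tendsto_atTop p h0 h0') (w + 1)
    exact lt_of_lt_of_le (Ec_strictMono p (by linarith)) h1

include h0 h0' in
lemma Ec_surj {v : ℝ} (hv : v ∈ Ioo (αe p) (βe p)) : ∃ w, Ec p w = v := by
  have h1 : ∀ᶠ w in atBot, Ec p w < v := (Ec_tendsto_atBot p h0 h0').eventually (gt_mem_nhds hv.1)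
  have h2 : ∀ᶠ w in atTop, v < Ec p w := (Ec_tendsto_atTop p h0 h0').eventually (lt_mem_nhds hv.2)
  obtain ⟨w1, hw1⟩ := h1.exists
  obtain ⟨w2, hw2⟩ := h2.exists
  exact mem_range_of_exists_le_of_exists_ge (Ec_continuous p) ⟨w1, hw1.le⟩ ⟨w2, hw2.le⟩

/-- the inverse of the coordinate -/
def gi (v : ℝ) : ℝ := Function.invFun (Ec p) v

lemma gi_Ec (w : ℝ) : gi p (Ec p w) = w :=
  Function.leftInverse_invFun (Ec_strictMono p).injective w

include h0 h0' in
lemma Ec_gi {v : ℝ} (hv : v ∈ Ioo (αe p) (βe p)) : Ec p (gi p v) = v :=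
  Function.invFun_eq (Ec_surj p h0 h0' hv)

include h0 h0' in
lemma gi_continuousAt {v : ℝ} (hv : v ∈ Ioo (αe p) (βe p)) : ContinuousAt (gi p) v := by
  refine continuousAt_of_monotoneOn_of_image_mem_nhds (s := Ioo (αe p) (βe p)) ?_
    (isOpen_Ioo.mem_nhds hv) ?_
  · intro x hx y hy hxy
    rw [← (Ec_strictMono p).le_iff_le, Ec_gi p h0 h0' hx, Ec_gi p h0 h0' hy]
    exact hxy
  · have : gi p '' Ioo (αe p) (βe p) = univ := by
      rw [eq_univ_iff_forall]
      exact fun w => ⟨Ec p w, Ec_mem p h0 h0' w, gi_Ec p w⟩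
    rw [this]
    exact univ_mem

include h0 h0' in
lemma gi_hasDerivAt {v : ℝ} (hv : v ∈ Ioo (αe p) (βe p)) :
    HasDerivAt (gi p) (lam p (gi p v))⁻¹ v := by
  refine HasDerivAt.of_local_left_inverse (gi_continuousAt p h0 h0' hv) (Ec_hasDerivAt p _)
    (lam_pos p _).ne' ?_
  filter_upwards [isOpen_Ioo.mem_nhds hv] with y hy
  exact Ec_gi p h0 h0' hy

include h0 h0' in
lemma αe_lt_βe : αe p < βe p := (Ec_mem p h0 h0' 0).1.trans (Ec_mem p h0 h0' 0).2

include h0 h0' in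
lemma cont_end {φ : ℝ → ℝ} {B : ℝ} (hB : 0 ≤ B)
    (h : ∀ v ∈ Ioo (αe p) (βe p), |φ v| ≤ B / r p (gi p v))
    (hout : ∀ v, v ∉ Ioo (αe p) (βe p) → φ v = 0) :
    ContinuousAt φ (αe p) ∧ ContinuousAt φ (βe p) := by
  have key : ∀ ε > 0, ∃ M : ℝ, ∀ v, (v < Ec p (-M) ∨ Ec p M < v) → |φ v| < ε := by
    intro ε hε
    obtain ⟨M, hM⟩ := r_tendsto_aux p ((B + 1) / ε)
    refine ⟨M, fun v hv => ?_⟩
    by_cases hvI : v ∈ Ioo (αe p) (βe p)
    · have h1 : M ≤ |gi p v| := by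
        rcases hv with hv | hv
        · have : gi p v < -M := by
            rw [← (Ec_strictMono p).lt_iff_lt, Ec_gi p h0 h0' hvI]; exact hv
          exact le_trans (by linarith) (neg_le_abs _)
        · have : M < gi p v := by
            rw [← (Ec_strictMono p).lt_iff_lt, Ec_gi p h0 h0' hvI]; exact hv
          exact this.le.trans (le_abs_self _)
      have h2 := hM _ h1
      refine (h v hvI).trans_lt ?_
      have hr := r_pos p (gi p v)
      rw [div_lt_iff₀ hr]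
      rw [div_le_iff₀ hε] at h2
      linarith
    · rw [hout v hvI, abs_zero]; exact hε
  constructor
  · rw [Metric.continuousAt_iff']
    intro ε hε
    obtain ⟨M, hM⟩ := key ε hε
    have h1 : αe p < Ec p (-M) := (Ec_mem p h0 h0' _).1
    filter_upwards [gt_mem_nhds h1] with v hv
    rw [hout (αe p) (fun h => lt_irrefl _ h.1), Real.dist_eq, sub_zero]
    exact hM v (Or.inl hv)
  · rw [Metric.continuousAt_iff']
    intro ε hε
    obtain ⟨M, hM⟩ := key ε hε
    have h1 : Ec p M < βe p := (Ec_mem p h0 h0' _).2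
    filter_upwards [lt_mem_nhds h1] with v hv
    rw [hout (βe p) (fun h => lt_irrefl _ h.2), Real.dist_eq, sub_zero]
    exact hM v (Or.inr hv)

/-! ### estimates -/

/-- hypothesis on `f` -/
structure Hyp (q : ℝ) (f : ℝ → ℝ) : Prop where
  q0 : 0 ≤ q
  q1 : q ≤ 1
  smooth : ContDiff ℝ 2 f
  b0 : ∀ w, |f w - w| ≤ q
  b1 : ∀ w, |deriv f w - 1| ≤ q / (1 + w ^ 2)
  b2 : ∀ w, |deriv (deriv f) w| ≤ q / (1 + w ^ 2)

variable {q : ℝ} {f : ℝ → ℝ}

lemma Hyp.d1 (H : Hyp q f) (w : ℝ) : HasDerivAt f (deriv f w) w :=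
  ((H.smooth.differentiable (by norm_num)) w).hasDerivAt

lemma Hyp.cd1 (H : Hyp q f) : ContDiff ℝ 1 (deriv f) :=
  (contDiff_succ_iff_deriv.mp (show ContDiff ℝ (1 + 1) f from by
    have := H.smooth; norm_num; exact this)).2.2

lemma Hyp.d2 (H : Hyp q f) (w : ℝ) : HasDerivAt (deriv f) (deriv (deriv f) w) w :=
  ((H.cd1.differentiable (by norm_num)) w).hasDerivAt

lemma Hyp.cont2 (H : Hyp q f) : Continuous (deriv (deriv f)) :=
  H.cd1.continuous_deriv (by norm_num)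

/-- `λ(f w) f'(w) / λ(w) - 1` -/
def M0 (f : ℝ → ℝ) (w : ℝ) : ℝ := lam p (f w) / lam p w * deriv f w - 1

def M1 (f : ℝ → ℝ) (w : ℝ) : ℝ :=
  lam p (f w) / lam p w * ((l1 p (f w) * deriv f w - l1 p w) * deriv f w + deriv (deriv f) w)

lemma M0_hasDerivAt (H : Hyp q f) (w : ℝ) : HasDerivAt (M0 p f) (M1 p f w) w := by
  have h1 : HasDerivAt (fun w => lam p (f w)) (lam p (f w) * l1 p (f w) * deriv f w) w :=
    (lam_hasDerivAt p (f w)).comp w (H.d1 w)
  have h2 := ((h1.div (lam_hasDerivAt p w) (lam_pos p w).ne').mul (H.d2 w)).sub_const 1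
  refine h2.congr_deriv ?_
  have h3 := (lam_pos p w).ne'
  unfold M1
  simp only [Pi.div_apply]
  field_simp

lemma M1_continuous (H : Hyp q f) : Continuous (M1 p f) := by
  have hl1 : Continuous (l1 p) := by
    rw [continuous_iff_continuousAt]; exact fun w => (l1_hasDerivAt p w).continuousAt
  have hf := H.smooth.continuous
  have hf1 := H.cd1.continuous
  have hf2 := H.cont2
  have hlam := lam_continuous p
  unfold M1
  refine Continuous.mul (Continuous.div (hlam.comp hf) hlam (fun w => (lam_pos p w).ne')) ?_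
  exact ((((hl1.comp hf).mul hf1).sub hl1).mul hf1).add hf2

lemma lam_abs (w : ℝ) : |lam p w| = 1 / r p w ^ 3 := by
  rw [abs_of_pos (lam_pos p w)]; unfold lam; rw [one_div]

lemma exists_est : ∃ C : ℝ, 1 ≤ C ∧ ∀ (q : ℝ) (f : ℝ → ℝ), Hyp q f → ∀ w,
    |Ec p (f w) - Ec p w| ≤ C * q / r p w ∧ |M0 p f w| ≤ C * q / r p w ∧
    |M1 p f w / lam p w| ≤ C * q / r p w := by
  obtain ⟨C0, hC0, hW⟩ := exists_W p
  obtain ⟨D, hD, hcomp⟩ := exists_comp p
  have hK := p.hK
  have hL := p.hL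
  set S1 : ℝ := 2 * (p.K + p.L) with hS1
  set S2 : ℝ := 5 * (p.K ^ 2 + p.L ^ 2) + 6 * (p.K + p.L) ^ 2 with hS2
  have hS1p : 0 < S1 := by positivity
  have hS2p : 0 < S2 := by positivity
  set A1 : ℝ := S1 * D ^ 5 with hA1
  have hD0 : 0 < D := by linarith
  have hA1p : 0 < A1 := by positivity
  set A4 : ℝ := (1 + A1) * ((S2 * D ^ 4 + S1 * C0) * 2 + C0) with hA4
  have hC00 : 0 < C0 := by linarith
  have hA4p : 0 < A4 := by positivity
  refine ⟨1 + D ^ 3 + (2 * A1 + C0) + A4, ?_, fun q f H w => ?_⟩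
  · have : 0 < D ^ 3 := by positivity
    linarith
  have hq0 := H.q0
  have hq1 := H.q1
  set R0 := r p w with hR0
  have hr1 : 1 ≤ R0 := r_ge_one p w
  have hr0 : 0 < R0 := by linarith
  have hfw : |f w - w| ≤ 1 := (H.b0 w).trans hq1
  -- comparison of radii
  have hcw : ∀ ξ, |ξ - w| ≤ 1 → R0 ≤ D * r p ξ := fun ξ hξ => hcomp w ξ hξ
  have hinv : ∀ ξ, |ξ - w| ≤ 1 → ∀ n : ℕ, 1 / r p ξ ^ n ≤ D ^ n / R0 ^ n := by
    intro ξ hξ n
    have hξ0 := r_pos p ξ
    rw [div_le_div_iff₀ (by positivity) (by positivity), one_mul, ← mul_pow]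
    exact pow_le_pow_left₀ hr0.le (hcw ξ hξ) n
  -- e0
  have e0 : |Ec p (f w) - Ec p w| ≤ D ^ 3 / R0 ^ 3 * q := by
    refine (mvt_aux (Ec_hasDerivAt p) hfw (B := D ^ 3 / R0 ^ 3) (fun ξ hξ => ?_)).trans ?_
    · rw [lam_abs]; exact hinv ξ hξ 3
    · gcongr; exact H.b0 w
  have hd : |deriv f w - 1| ≤ C0 * q / R0 ^ 4 := by
    refine (H.b1 w).trans ?_
    rw [div_le_div_iff₀ (by positivity) (by positivity)]
    have := (hW w).2
    calc q * R0 ^ 4 ≤ q * (C0 * (1 + w ^ 2)) := by gcongr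
      _ = _ := by ring
  have hdd : |deriv (deriv f) w| ≤ C0 * q / R0 ^ 4 := by
    refine (H.b2 w).trans ?_
    rw [div_le_div_iff₀ (by positivity) (by positivity)]
    have := (hW w).2
    calc q * R0 ^ 4 ≤ q * (C0 * (1 + w ^ 2)) := by gcongr
      _ = _ := by ring
  have hd2 : |deriv f w| ≤ 2 := by
    have h1 : |deriv f w - 1| ≤ 1 := by
      refine (H.b1 w).trans ?_
      rw [div_le_one (by positivity)]
      nlinarith [sq_nonneg w]
    have := abs_le.mp h1
    rw [abs_le]; constructor <;> linarith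
  -- ratio
  have hlam0 : 0 < lam p w := lam_pos p w
  have eR : |lam p (f w) / lam p w - 1| ≤ A1 * q / R0 ^ 2 := by
    have h1 : |lam p (f w) - lam p w| ≤ (A1 / R0 ^ 5) * |f w - w| := by
      refine mvt_aux (lam_hasDerivAt p) hfw (fun ξ hξ => ?_)
      rw [abs_mul, lam_abs]
      have hξ0 := r_pos p ξ
      calc 1 / r p ξ ^ 3 * |l1 p ξ| ≤ 1 / r p ξ ^ 3 * (S1 / r p ξ ^ 2) := by
            gcongr; exact l1_le p ξ
        _ = S1 * (1 / r p ξ ^ 5) := by field_simp
        _ ≤ S1 * (D ^ 5 / R0 ^ 5) := mul_le_mul_of_nonneg_left (hinv ξ hξ 5) hS1p.le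
        _ = A1 / R0 ^ 5 := by rw [hA1]; ring
    have h2 : lam p (f w) / lam p w - 1 = (lam p (f w) - lam p w) * R0 ^ 3 := by
      have : lam p w = (R0 ^ 3)⁻¹ := rfl
      rw [this]; field_simp
    rw [h2, abs_mul, abs_of_pos (by positivity : 0 < R0 ^ 3)]
    calc |lam p (f w) - lam p w| * R0 ^ 3 ≤ ((A1 / R0 ^ 5) * q) * R0 ^ 3 := by
          gcongr; exact h1.trans (by gcongr; exact H.b0 w)
      _ = _ := by field_simp
  have hle : ∀ (c : ℝ) (n : ℕ), 0 ≤ c → 1 ≤ n → c / R0 ^ n ≤ c / R0 := by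
    intro c n hc hn
    refine div_le_div_of_nonneg_left hc hr0 ?_
    exact le_self_pow₀ hr1 (by omega)
  have hle1 : ∀ (c : ℝ) (n : ℕ), 0 ≤ c → c / R0 ^ n ≤ c := by
    intro c n hc
    exact div_le_self hc (one_le_pow₀ hr1)
  have eR1 : |lam p (f w) / lam p w| ≤ 1 + A1 := by
    have h1 : |lam p (f w) / lam p w - 1| ≤ A1 := by
      refine eR.trans ((hle1 _ 2 (by positivity)).trans ?_)
      nlinarith
    have := abs_le.mp h1
    rw [abs_le]; constructor <;> linarith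
  have eM0 : |M0 p f w| ≤ (2 * A1 + C0) * q / R0 := by
    have h1 : M0 p f w = (lam p (f w) / lam p w - 1) * deriv f w + (deriv f w - 1) := by
      unfold M0; ring
    rw [h1]
    calc |(lam p (f w) / lam p w - 1) * deriv f w + (deriv f w - 1)|
        ≤ |lam p (f w) / lam p w - 1| * |deriv f w| + |deriv f w - 1| := by
          refine (abs_add_le _ _).trans ?_
          rw [abs_mul]
      _ ≤ (A1 * q / R0 ^ 2) * 2 + C0 * q / R0 ^ 4 := by gcongr
      _ ≤ (A1 * q / R0) * 2 + C0 * q / R0 :=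
          add_le_add (mul_le_mul_of_nonneg_right (hle (A1 * q) 2 (by positivity) (by norm_num))
            (by norm_num)) (hle (C0 * q) 4 (by positivity) (by norm_num))
      _ = _ := by ring
  have eM1 : |M1 p f w / lam p w| ≤ A4 * q / R0 := by
    have h1 : |l1 p (f w) - l1 p w| ≤ (S2 * D ^ 4 / R0 ^ 4) * |f w - w| := by
      refine mvt_aux (l1_hasDerivAt p) hfw (fun ξ hξ => ?_)
      have hξ0 := r_pos p ξ
      calc |l2 p ξ| ≤ S2 / r p ξ ^ 4 := l2_le p ξ
        _ = S2 * (1 / r p ξ ^ 4) := by ring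
        _ ≤ S2 * (D ^ 4 / R0 ^ 4) := mul_le_mul_of_nonneg_left (hinv ξ hξ 4) hS2p.le
        _ = _ := by ring
    have h2 : |l1 p (f w)| ≤ S1 := by
      refine (l1_le p (f w)).trans ?_
      exact div_le_self hS1p.le (one_le_pow₀ (r_ge_one p _))
    have h3 : |l1 p (f w) * deriv f w - l1 p w| ≤ (S2 * D ^ 4 + S1 * C0) * q / R0 ^ 4 := by
      have h4 : l1 p (f w) * deriv f w - l1 p w =
        (l1 p (f w) - l1 p w) + l1 p (f w) * (deriv f w - 1) := by ring
      rw [h4]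
      calc |(l1 p (f w) - l1 p w) + l1 p (f w) * (deriv f w - 1)|
          ≤ |l1 p (f w) - l1 p w| + |l1 p (f w)| * |deriv f w - 1| := by
            refine (abs_add_le _ _).trans ?_
            rw [abs_mul]
        _ ≤ (S2 * D ^ 4 / R0 ^ 4) * q + S1 * (C0 * q / R0 ^ 4) := by
            gcongr
            exact h1.trans (by gcongr; exact H.b0 w)
        _ = _ := by ring
    have h5 : |M1 p f w| ≤ A4 * q / R0 ^ 4 := by
      unfold M1
      rw [abs_mul]
      calc |lam p (f w) / lam p w| * |(l1 p (f w) * deriv f w - l1 p w) * deriv f w + deriv (deriv f) w|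
          ≤ (1 + A1) * (((S2 * D ^ 4 + S1 * C0) * q / R0 ^ 4) * 2 + C0 * q / R0 ^ 4) := by
            gcongr
            refine (abs_add_le _ _).trans ?_
            rw [abs_mul]
            gcongr
        _ = _ := by rw [hA4]; ring
    have h6 : M1 p f w / lam p w = M1 p f w * R0 ^ 3 := by
      have : lam p w = (R0 ^ 3)⁻¹ := rfl
      rw [this]; field_simp
    rw [h6, abs_mul, abs_of_pos (by positivity : 0 < R0 ^ 3)]
    calc |M1 p f w| * R0 ^ 3 ≤ (A4 * q / R0 ^ 4) * R0 ^ 3 := by gcongr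
      _ = _ := by field_simp
  have hD3 : 0 < D ^ 3 := by positivity
  refine ⟨?_, ?_, ?_⟩
  · refine e0.trans ?_
    have : D ^ 3 / R0 ^ 3 * q = (D ^ 3 * q) / R0 ^ 3 := by ring
    rw [this]
    refine (hle _ 3 (by positivity) (by norm_num)).trans ?_
    exact div_le_div_of_nonneg_right (mul_le_mul_of_nonneg_right (by linarith) hq0) hr0.le
  · refine eM0.trans ?_
    exact div_le_div_of_nonneg_right (mul_le_mul_of_nonneg_right (by linarith) hq0) hr0.le
  · refine eM1.trans ?_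
    exact div_le_div_of_nonneg_right (mul_le_mul_of_nonneg_right (by linarith) hq0) hr0.le

/-! ### the main argument -/

open Classical in
def F0 (f : ℝ → ℝ) (v : ℝ) : ℝ := if v ∈ Ioo (αe p) (βe p) then Ec p (f (gi p v)) - v else 0
open Classical in
def F1 (f : ℝ → ℝ) (v : ℝ) : ℝ := if v ∈ Ioo (αe p) (βe p) then M0 p f (gi p v) else 0
open Classical in
def F2 (f : ℝ → ℝ) (v : ℝ) : ℝ :=
  if v ∈ Ioo (αe p) (βe p) then M1 p f (gi p v) / lam p (gi p v) else 0

include h0 h0' in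
lemma main_aux : ∃ C : ℝ, 1 ≤ C ∧ ∀ (q : ℝ) (f : ℝ → ℝ), Hyp q f →
    (∀ v, HasDerivAt (F0 p f) (F1 p f v) v) ∧ (∀ v, HasDerivAt (F1 p f) (F2 p f v) v) ∧
    Continuous (F2 p f) ∧ ∀ v, |F0 p f v| ≤ C * q ∧ |F1 p f v| ≤ C * q ∧ |F2 p f v| ≤ C * q := by
  obtain ⟨C, hC, hest⟩ := exists_est p
  refine ⟨C, hC, fun q f H => ?_⟩
  have hCq : 0 ≤ C * q := mul_nonneg (by linarith) H.q0
  have e := hest q f H
  have b0 : ∀ v ∈ Ioo (αe p) (βe p), |F0 p f v| ≤ C * q / r p (gi p v) := by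
    intro v hv
    unfold F0; rw [if_pos hv]
    have := (e (gi p v)).1
    rwa [Ec_gi p h0 h0' hv] at this
  have b1 : ∀ v ∈ Ioo (αe p) (βe p), |F1 p f v| ≤ C * q / r p (gi p v) := by
    intro v hv
    unfold F1; rw [if_pos hv]
    exact (e (gi p v)).2.1
  have b2 : ∀ v ∈ Ioo (αe p) (βe p), |F2 p f v| ≤ C * q / r p (gi p v) := by
    intro v hv
    unfold F2; rw [if_pos hv]
    exact (e (gi p v)).2.2
  have o0 : ∀ v, v ∉ Ioo (αe p) (βe p) → F0 p f v = 0 := fun v hv => by unfold F0; rw [if_neg hv]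
  have o1 : ∀ v, v ∉ Ioo (αe p) (βe p) → F1 p f v = 0 := fun v hv => by unfold F1; rw [if_neg hv]
  have o2 : ∀ v, v ∉ Ioo (αe p) (βe p) → F2 p f v = 0 := fun v hv => by unfold F2; rw [if_neg hv]
  have c0 := cont_end p h0 h0' hCq b0 o0
  have c1 := cont_end p h0 h0' hCq b1 o1
  have c2 := cont_end p h0 h0' hCq b2 o2
  have hαβ := αe_lt_βe p h0 h0'
  have hin0 : ∀ v ∈ Ioo (αe p) (βe p), HasDerivAt (F0 p f) (F1 p f v) v := by
    intro v hv
    have h1 := gi_hasDerivAt p h0 h0' hv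
    have h2 := (Ec_hasDerivAt p (f (gi p v))).comp (gi p v) (H.d1 (gi p v))
    have h3 := (h2.comp v h1).sub (hasDerivAt_id v)
    refine (h3.congr_of_eventuallyEq ?_).congr_deriv ?_
    · filter_upwards [isOpen_Ioo.mem_nhds hv] with y hy
      unfold F0; rw [if_pos hy]; rfl
    · unfold F1 M0; rw [if_pos hv]
      ring
  have hin1 : ∀ v ∈ Ioo (αe p) (βe p), HasDerivAt (F1 p f) (F2 p f v) v := by
    intro v hv
    have h1 := gi_hasDerivAt p h0 h0' hv
    have h3 := (M0_hasDerivAt p H (gi p v)).comp v h1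
    refine (h3.congr_of_eventuallyEq ?_).congr_deriv ?_
    · filter_upwards [isOpen_Ioo.mem_nhds hv] with y hy
      unfold F1; rw [if_pos hy]; rfl
    · unfold F2; rw [if_pos hv]
      ring
  have hin2 : ∀ v ∈ Ioo (αe p) (βe p), ContinuousAt (F2 p f) v := by
    intro v hv
    have h1 := gi_continuousAt p h0 h0' hv
    have h3 : ContinuousAt (fun v => M1 p f (gi p v) / lam p (gi p v)) v := by
      refine ContinuousAt.div ?_ ?_ (lam_pos p _).ne'
      · exact ContinuousAt.comp (g := M1 p f) (M1_continuous p H).continuousAt h1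
      · exact ContinuousAt.comp (g := lam p) (lam_continuous p).continuousAt h1
    refine h3.congr ?_
    filter_upwards [isOpen_Ioo.mem_nhds hv] with y hy
    unfold F2; rw [if_pos hy]
  refine ⟨ext_deriv hαβ hin0 (fun x hx => ⟨o0 x hx, o1 x hx⟩) c0.1 c0.2 c1.1 c1.2,
    ext_deriv hαβ hin1 (fun x hx => ⟨o1 x hx, o2 x hx⟩) c1.1 c1.2 c2.1 c2.2, ?_, ?_⟩
  · rw [continuous_iff_continuousAt]
    intro v
    by_cases hv : v ∈ Ioo (αe p) (βe p)
    · exact hin2 v hv
    · by_cases h1 : v = αe p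
      · rw [h1]; exact c2.1
      · by_cases h2 : v = βe p
        · rw [h2]; exact c2.2
        · have h3 : v < αe p ∨ βe p < v := by
            rw [mem_Ioo, not_and_or, not_lt, not_lt] at hv
            rcases hv with hv | hv
            · exact Or.inl (lt_of_le_of_ne hv h1)
            · exact Or.inr (lt_of_le_of_ne hv (Ne.symm h2))
          have h4 : F2 p f =ᶠ[𝓝 v] fun _ => 0 := by
            rcases h3 with h3 | h3
            · filter_upwards [gt_mem_nhds h3] with y hy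
              exact o2 y (fun h => absurd h.1 (not_lt.mpr (le_of_lt hy)))
            · filter_upwards [lt_mem_nhds h3] with y hy
              exact o2 y (fun h => absurd h.2 (not_lt.mpr (le_of_lt hy)))
          exact (continuousAt_const (y := (0 : ℝ))).congr h4.symm
  · intro v
    by_cases hv : v ∈ Ioo (αe p) (βe p)
    · have hr := r_ge_one p (gi p v)
      have h1 : C * q / r p (gi p v) ≤ C * q := div_le_self hCq hr
      exact ⟨(b0 v hv).trans h1, (b1 v hv).trans h1, (b2 v hv).trans h1⟩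
    · rw [o0 v hv, o1 v hv, o2 v hv, abs_zero]
      exact ⟨hCq, hCq, hCq⟩

/-- the coordinate as an equivalence -/
def Ecoord : ℝ ≃ Subtype (fun x : ℝ => x ∈ Ioo (αe p) (βe p)) :=
  Equiv.ofBijective (fun w => ⟨Ec p w, Ec_mem p h0 h0' w⟩)
    ⟨fun x y h => (Ec_strictMono p).injective (congrArg Subtype.val h),
      fun v => (Ec_surj p h0 h0' v.2).imp (fun _ hw => Subtype.ext hw)⟩

lemma Ecoord_apply (w : ℝ) : ((Ecoord p h0 h0' w : Subtype _) : ℝ) = Ec p w := rfl

lemma Ecoord_symm {v : ℝ} (hv : v ∈ Ioo (αe p) (βe p)) :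
    (Ecoord p h0 h0').symm ⟨v, hv⟩ = gi p v := by
  rw [Equiv.symm_apply_eq]
  exact Subtype.ext (Ec_gi p h0 h0' hv).symm

open Classical in
lemma ext_eq (f : Equiv.Perm ℝ) (v : ℝ) :
    f.extendDomain (Ecoord p h0 h0') v = v + F0 p f v := by
  by_cases hv : v ∈ Ioo (αe p) (βe p)
  · rw [Equiv.Perm.extendDomain_apply_subtype _ _ hv, Ecoord_symm, Ecoord_apply]
    unfold F0; rw [if_pos hv]; ring
  · rw [Equiv.Perm.extendDomain_apply_not_subtype _ _ hv]
    unfold F0; rw [if_neg hv]; ring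

lemma c2s_of {g G1 G2 : ℝ → ℝ} {B : ℝ} (h1 : ∀ v, HasDerivAt (fun v => g v - v) (G1 v) v)
    (h2 : ∀ v, HasDerivAt G1 (G2 v) v) (h3 : Continuous G2)
    (hb : ∀ v, |g v - v| ≤ B ∧ |G1 v| ≤ B ∧ |G2 v| ≤ B) : C2S B g := by
  have hg : ∀ v, HasDerivAt g (G1 v + 1) v := by
    intro v
    have := (h1 v).add (hasDerivAt_id v)
    refine this.congr_of_eventuallyEq ?_
    filter_upwards with y
    simp
  have hd : deriv g = fun v => G1 v + 1 := funext fun v => (hg v).deriv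
  have hG : ∀ v, HasDerivAt (fun v => G1 v + 1) (G2 v) v := fun v => (h2 v).add_const 1
  have hdd : deriv (deriv g) = G2 := by rw [hd]; exact funext fun v => (hG v).deriv
  refine ⟨?_, fun x => ⟨(hb x).1, ?_, ?_⟩⟩
  · have : ContDiff ℝ (1 + 1) g := by
      rw [contDiff_succ_iff_deriv]
      refine ⟨fun v => (hg v).differentiableAt, by simp, ?_⟩
      rw [contDiff_one_iff_deriv]
      refine ⟨?_, by rw [hdd]; exact h3⟩
      rw [hd]; exact fun v => (hG v).differentiableAt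
    norm_num at this
    exact this
  · rw [hd]; simpa using (hb x).2.1
  · rw [hdd]; exact (hb x).2.2

end

end Pool.Agent.Germ.EndC

namespace Pool.Agent.Germ

open EndC

open Classical in
theorem end_coord (ρ : ℝ) (hρ : 0 < ρ) (hρ1 : ρ ≤ 1) : ∃ C : ℝ, 1 ≤ C ∧
    ∃ E : ℝ ≃ Subtype (fun x : ℝ => x ∈ Ioo (-ρ) (4 : ℝ)),
      (∀ w, -(ρ / 2) ≤ w → w ≤ 3 → (E w : ℝ) = w) ∧
      ∀ q : ℝ, 0 ≤ q → q ≤ 1 → ∀ f : Equiv.Perm ℝ, ContDiff ℝ 2 f →
        (∀ w, |f w - w| ≤ q ∧ |deriv f w - 1| ≤ q / (1 + w ^ 2) ∧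
          |deriv (deriv f) w| ≤ q / (1 + w ^ 2)) →
        C2S (C * q) (f.extendDomain E) := by
  have hI := II_pos
  let p : Par := ⟨II, 2 * II / ρ, -(ρ / 2), 3, hI, by positivity, by linarith⟩
  have h0 : p.a ≤ 0 := by show -(ρ / 2) ≤ 0; linarith
  have h0' : 0 ≤ p.b := by show (0:ℝ) ≤ 3; norm_num
  have hβ : βe p = 4 := by
    show (3 : ℝ) + II / II = 4
    rw [div_self hI.ne']; norm_num
  have hα : αe p = -ρ := by
    show -(ρ / 2) - II / (2 * II / ρ) = -ρ
    field_simp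
    ring
  obtain ⟨C, hC, hmain⟩ := main_aux p h0 h0'
  refine ⟨C, hC, ?_⟩
  rw [← hα, ← hβ]
  refine ⟨Ecoord p h0 h0', fun w h1 h2 => Ec_eq p h0 h0' h1 h2, fun q hq0 hq1 f hf hb => ?_⟩
  have H : Hyp q f := ⟨hq0, hq1, hf, fun w => (hb w).1, fun w => (hb w).2.1, fun w => (hb w).2.2⟩
  obtain ⟨g1, g2, g3, g4⟩ := hmain q f H
  have he : ∀ v, f.extendDomain (Ecoord p h0 h0') v - v = F0 p f v := fun v => by
    rw [ext_eq]; ring
  refine c2s_of (G1 := F1 p f) (G2 := F2 p f) (fun v => ?_) g2 g3 (fun v => ?_)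
  · refine (g1 v).congr_of_eventuallyEq ?_
    filter_upwards with y using he y
  · rw [he v]; exact g4 v

end Pool.Agent.Germ
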