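import Pool.Agent.Helper69.Germ.EndCoord

/-!
# Perfectness lemma (R5b of MP_91c48b_an), with `rolling` and `chain` as hypotheses
-/

open Filter Topology Set

namespace Pool.Agent.Germ

/-- the statement of the rolling lemma R3 -/
def RollingStmt : Prop := ∀ Cθ : ℝ, ∃ C c0 : ℝ, 0 < c0 ∧ 1 ≤ C ∧
    ∀ (A0 A1 B0 B1 : ℝ) (θ : ℝ → Equiv.Perm ℝ), TransFam A0 A1 B0 B1 Cθ θ → B0 < A0 → A1 < B1 →
    ∀ (l ℓ e : ℝ) (n : ℕ) (s : Equiv.Perm ℝ), A0 ≤ l → l + 3 * ℓ ≤ A1 → 0 < ℓ → ℓ ≤ 1 → 8 ≤ n →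
      0 ≤ e → n * e ≤ c0 → SuppIn l (l + ℓ) s → SZ 4 l ℓ e s →
    ∃ (a s' : Equiv.Perm ℝ) (l' : ℝ), s = comm a (θ (ℓ / n)) * s' ∧ SuppIn B0 B1 a ∧
      ContDiff ℝ 2 a ∧
      (∀ x, |a x - x| ≤ C * (n * e) * ℓ ∧ |deriv a x - 1| ≤ C * (n * e) ∧
        |deriv (deriv a) x| ≤ C * (n * e) / ℓ) ∧
      l + ℓ ≤ l' ∧ l' + 2 * (ℓ / n) ≤ l + 2 * ℓ ∧ SuppIn l' (l' + 2 * (ℓ / n)) s' ∧
      SZ 4 l' (2 * (ℓ / n)) (C * e / n ^ 2) s'

/-- the statement of the chain lemma R5 -/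
def ChainStmt : Prop := ∀ (C1 : ℝ) (θ : ℝ → Equiv.Perm ℝ), TransFam (1/8) (3/4) 0 1 C1 θ →
    ∃ C c0 : ℝ, ∃ n0 : ℕ, 0 < c0 ∧ 1 ≤ C ∧ ∀ (n : ℕ) (e : ℝ) (s : Equiv.Perm ℝ), n0 ≤ n → 0 ≤ e →
      n * e ≤ c0 → SuppIn (1/4) (3/8) s → SZ 4 (1/4) (1/8) e s →
      ∃ A T R : Equiv.Perm ℝ, s = comm A T * comm R (Equiv.addRight (1 : ℝ)) ∧
        ∀ f : Equiv.Perm ℝ, f = A ∨ f = T ∨ f = R → (∀ y ≤ 0, f y = y) ∧ ContDiff ℝ 2 f ∧
          ∀ y, |f y - y| ≤ C * (n * e + 1 / n) / (1 + y ^ 2) ∧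
            |deriv f y - 1| ≤ C * (n * e + 1 / n) / (1 + y ^ 2) ∧
            |deriv (deriv f) y| ≤ C * (n * e + 1 / n) / (1 + y ^ 2)

noncomputable section

/-- affine change of coordinate `y ↦ w0 + κ y` -/
def aff (w0 κ : ℝ) (hκ : κ ≠ 0) : ℝ ≃ ℝ where
  toFun y := w0 + κ * y
  invFun w := (w - w0) / κ
  left_inv y := by field_simp; ring
  right_inv w := by field_simp; ring

lemma map_comm {G H : Type*} [Group G] [Group H] (φ : G →* H) (a b : G) :
    φ (comm a b) = comm (φ a) (φ b) := by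
  simp [comm]

variable {w0 κ : ℝ} {hκ : κ ≠ 0}

lemma aff_conj_apply (f : Equiv.Perm ℝ) (w : ℝ) :
    (aff w0 κ hκ).permCongr f w = w0 + κ * f ((w - w0) / κ) := rfl

lemma c2_d1 {f : ℝ → ℝ} (hf : ContDiff ℝ 2 f) (w : ℝ) : HasDerivAt f (deriv f w) w :=
  ((hf.differentiable (by norm_num)) w).hasDerivAt

lemma c2_cd1 {f : ℝ → ℝ} (hf : ContDiff ℝ 2 f) : ContDiff ℝ 1 (deriv f) :=
  (contDiff_succ_iff_deriv.mp (show ContDiff ℝ (1 + 1) f from by
    have := hf; norm_num; exact this)).2.2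

lemma c2_d2 {f : ℝ → ℝ} (hf : ContDiff ℝ 2 f) (w : ℝ) :
    HasDerivAt (deriv f) (deriv (deriv f) w) w :=
  (((c2_cd1 hf).differentiable (by norm_num)) w).hasDerivAt

lemma aff_contDiff (f : Equiv.Perm ℝ) (hf : ContDiff ℝ 2 f) :
    ContDiff ℝ 2 ((aff w0 κ hκ).permCongr f) := by
  have : ((aff w0 κ hκ).permCongr f : ℝ → ℝ) = fun w => w0 + κ * f ((w - w0) / κ) := rfl
  rw [this]
  exact contDiff_const.add (contDiff_const.mul (hf.comp (by fun_prop)))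

lemma aff_deriv (f : Equiv.Perm ℝ) (hf : ContDiff ℝ 2 f) :
    deriv ((aff w0 κ hκ).permCongr f) = fun w => deriv f ((w - w0) / κ) := by
  funext w
  have h1 : HasDerivAt (fun w => (w - w0) / κ) (1 / κ) w :=
    ((hasDerivAt_id w).sub_const w0).div_const κ
  have h2 := (((c2_d1 hf ((w - w0) / κ)).comp w h1).const_mul κ).const_add w0
  have h3 : HasDerivAt ((aff w0 κ hκ).permCongr f) (κ * (deriv f ((w - w0) / κ) * (1 / κ))) w := h2
  rw [h3.deriv]
  field_simp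

lemma aff_deriv2 (f : Equiv.Perm ℝ) (hf : ContDiff ℝ 2 f) (w : ℝ) :
    deriv (deriv ((aff w0 κ hκ).permCongr f)) w = deriv (deriv f) ((w - w0) / κ) / κ := by
  rw [aff_deriv f hf]
  have h1 : HasDerivAt (fun w => (w - w0) / κ) (1 / κ) w :=
    ((hasDerivAt_id w).sub_const w0).div_const κ
  have h2 := (c2_d2 hf ((w - w0) / κ)).comp w h1
  have h3 : HasDerivAt (fun w => deriv f ((w - w0) / κ))
    (deriv (deriv f) ((w - w0) / κ) * (1 / κ)) w := h2
  rw [h3.deriv]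
  ring

lemma C2S.mono {e e' : ℝ} {f : ℝ → ℝ} (h : C2S e f) (he : e ≤ e') : C2S e' f :=
  ⟨h.1, fun x => ⟨(h.2 x).1.trans he, (h.2 x).2.1.trans he, (h.2 x).2.2.trans he⟩⟩

lemma C2S.comp' {K1 K2 τ : ℝ} (hK1 : 0 ≤ K1) (hK2 : 0 ≤ K2) (h0 : 0 ≤ τ) (h1 : τ ≤ 1)
    {f g : ℝ → ℝ} (hf : C2S (K1 * τ) f) (hg : C2S (K2 * τ) g) :
    C2S ((K1 * (1 + K2) ^ 2 + (1 + K1) * K2) * τ) (f ∘ g) := by
  have hd : ∀ x, HasDerivAt (f ∘ g) (deriv f (g x) * deriv g x) x := fun x =>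
    (c2_d1 hf.1 (g x)).comp x (c2_d1 hg.1 x)
  have hde : deriv (f ∘ g) = fun x => deriv f (g x) * deriv g x := funext fun x => (hd x).deriv
  have hdd : ∀ x, HasDerivAt (fun x => deriv f (g x) * deriv g x)
      (deriv (deriv f) (g x) * deriv g x * deriv g x + deriv f (g x) * deriv (deriv g) x) x :=
    fun x => ((c2_d2 hf.1 (g x)).comp x (c2_d1 hg.1 x)).mul (c2_d2 hg.1 x)
  refine ⟨hf.1.comp hg.1, fun x => ?_⟩
  obtain ⟨g0, g1, g2⟩ := hg.2 x
  obtain ⟨f0, f1, f2⟩ := hf.2 (g x)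
  have hK1τ : K1 * τ ≤ K1 := mul_le_of_le_one_right hK1 h1
  have hK2τ : K2 * τ ≤ K2 := mul_le_of_le_one_right hK2 h1
  have hg1 : |deriv g x| ≤ 1 + K2 := by
    have h := abs_le.mp (g1.trans hK2τ); rw [abs_le]; constructor <;> linarith
  have hf1 : |deriv f (g x)| ≤ 1 + K1 := by
    have h := abs_le.mp (f1.trans hK1τ); rw [abs_le]; constructor <;> linarith
  have hτ1 : 0 ≤ K1 * τ := by positivity
  have hτ2 : 0 ≤ K2 * τ := by positivity
  have hτ3 : 0 ≤ K1 * K2 * τ := by positivity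
  have hτ4 : 0 ≤ K1 * K2 ^ 2 * τ := by positivity
  refine ⟨?_, ?_, ?_⟩
  · have : (f ∘ g) x - x = (f (g x) - g x) + (g x - x) := by simp
    rw [this]
    refine (abs_add_le _ _).trans ?_
    linarith
  · rw [hde]
    have : deriv f (g x) * deriv g x - 1 = (deriv f (g x) - 1) * deriv g x + (deriv g x - 1) := by
      ring
    simp only [this]
    calc |(deriv f (g x) - 1) * deriv g x + (deriv g x - 1)|
        ≤ |deriv f (g x) - 1| * |deriv g x| + |deriv g x - 1| := by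
          refine (abs_add_le _ _).trans ?_
          rw [abs_mul]
      _ ≤ (K1 * τ) * (1 + K2) + K2 * τ := by gcongr
      _ ≤ _ := by linarith
  · rw [hde, (hdd x).deriv]
    calc |deriv (deriv f) (g x) * deriv g x * deriv g x + deriv f (g x) * deriv (deriv g) x|
        ≤ |deriv (deriv f) (g x)| * |deriv g x| * |deriv g x|
          + |deriv f (g x)| * |deriv (deriv g) x| := by
          refine (abs_add_le _ _).trans ?_
          rw [abs_mul, abs_mul, abs_mul]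
      _ ≤ (K1 * τ) * (1 + K2) * (1 + K2) + (1 + K1) * (K2 * τ) := by gcongr
      _ = _ := by ring

lemma C2S.aff {e : ℝ} (he : 0 ≤ e) (f : Equiv.Perm ℝ) (h : C2S e f) (hκ0 : 0 < κ) :
    C2S (max 1 κ * max 1 (1 / κ) * e) ((Pool.Agent.Germ.aff w0 κ hκ).permCongr f) := by
  have h1 : e ≤ max 1 κ * max 1 (1 / κ) * e := by
    have : 1 ≤ max 1 κ * max 1 (1 / κ) := one_le_mul_of_one_le_of_one_le (le_max_left _ _) (le_max_left _ _)
    exact le_mul_of_one_le_left he this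
  refine ⟨aff_contDiff f h.1, fun w => ⟨?_, ?_, ?_⟩⟩
  · rw [aff_conj_apply]
    have : w0 + κ * f ((w - w0) / κ) - w = κ * (f ((w - w0) / κ) - (w - w0) / κ) := by
      field_simp; ring
    rw [this, abs_mul, abs_of_pos hκ0]
    have h2 := (h.2 ((w - w0) / κ)).1
    calc κ * |f ((w - w0) / κ) - (w - w0) / κ| ≤ max 1 κ * e := by
          gcongr; exact le_max_right _ _
      _ ≤ max 1 κ * max 1 (1 / κ) * e := by
          have : 1 ≤ max 1 (1 / κ) := le_max_left _ _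
          have h3 : 0 ≤ max 1 κ := le_trans (by norm_num) (le_max_left _ _)
          calc max 1 κ * e = max 1 κ * 1 * e := by ring
            _ ≤ _ := by gcongr
  · rw [aff_deriv f h.1]
    exact (h.2 _).2.1.trans h1
  · rw [aff_deriv2 f h.1, abs_div, abs_of_pos hκ0]
    have h2 := (h.2 ((w - w0) / κ)).2.2
    calc |deriv (deriv f) ((w - w0) / κ)| / κ = (1 / κ) * |deriv (deriv f) ((w - w0) / κ)| := by ring
      _ ≤ max 1 (1 / κ) * e := by
          gcongr; exact le_max_right _ _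
      _ ≤ max 1 κ * max 1 (1 / κ) * e := by
          have : 1 ≤ max 1 κ := le_max_left _ _
          have h3 : 0 ≤ max 1 (1 / κ) := le_trans (by norm_num) (le_max_left _ _)
          calc max 1 (1 / κ) * e = 1 * max 1 (1 / κ) * e := by ring
            _ ≤ _ := by gcongr

open Classical in
/-- the family of translations in the end coordinate -/
def thE {ρ : ℝ} (E : ℝ ≃ Subtype (fun x : ℝ => x ∈ Ioo (-ρ) (4 : ℝ))) (t : ℝ) : Equiv.Perm ℝ :=
  (Equiv.addRight t).extendDomain E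

open Classical in
lemma supp_ext {ρ : ℝ} (E : ℝ ≃ Subtype (fun x : ℝ => x ∈ Ioo (-ρ) (4 : ℝ))) (f : Equiv.Perm ℝ) :
    SuppIn (-ρ) 4 (f.extendDomain E) := by
  intro x hx
  refine Equiv.Perm.extendDomain_apply_not_subtype _ _ ?_
  rw [mem_Ioo, not_and_or, not_lt, not_lt]
  exact hx

open Classical in
lemma ext_apply_mid {ρ : ℝ} (hρ : 0 < ρ) (E : ℝ ≃ Subtype (fun x : ℝ => x ∈ Ioo (-ρ) (4 : ℝ)))
    (hE : ∀ w, -(ρ / 2) ≤ w → w ≤ 3 → (E w : ℝ) = w) (f : Equiv.Perm ℝ) {x : ℝ}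
    (h1 : -(ρ / 2) ≤ x) (h2 : x ≤ 3) : f.extendDomain E x = E (f x) := by
  have hx : x ∈ Ioo (-ρ) (4 : ℝ) := ⟨by linarith, by linarith⟩
  have hs : E.symm ⟨x, hx⟩ = x := by
    rw [Equiv.symm_apply_eq]; exact Subtype.ext (hE x h1 h2).symm
  rw [Equiv.Perm.extendDomain_apply_subtype _ _ hx, hs]

open Classical in
lemma ext_self {ρ : ℝ} (hρ : 0 < ρ) (E : ℝ ≃ Subtype (fun x : ℝ => x ∈ Ioo (-ρ) (4 : ℝ)))
    (hE : ∀ w, -(ρ / 2) ≤ w → w ≤ 3 → (E w : ℝ) = w) (s : Equiv.Perm ℝ) {a b : ℝ}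
    (ha : -(ρ / 2) ≤ a) (hb : b ≤ 3) (hab : a ≤ b) (hs : SuppIn a b s) :
    s.extendDomain E = s := by
  ext x
  by_cases h1 : -(ρ / 2) ≤ x ∧ x ≤ 3
  · rw [ext_apply_mid hρ E hE s h1.1 h1.2]
    refine hE _ ?_ ?_
    · by_contra h
      push Not at h
      have h3 : s (s x) = s x := hs (s x) (Or.inl (by linarith))
      have h4 : s x = x := s.injective h3
      linarith [h1.1]
    · by_contra h
      push Not at h
      have h3 : s (s x) = s x := hs (s x) (Or.inr (by linarith))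
      have h4 : s x = x := s.injective h3
      linarith [h1.2]
  · have h2 : x < -(ρ / 2) ∨ 3 < x := by
      by_contra h
      push Not at h
      exact h1 h
    have hsx : s x = x := by
      rcases h2 with h2 | h2
      · exact hs x (Or.inl (by linarith))
      · exact hs x (Or.inr (by linarith))
    rw [hsx]
    by_cases hx : x ∈ Ioo (-ρ) (4 : ℝ)
    · rw [Equiv.Perm.extendDomain_apply_subtype _ _ hx]
      -- the preimage is outside of `[-ρ/2, 3]`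
      set w := E.symm ⟨x, hx⟩ with hw
      have hEw : (E w : ℝ) = x := by rw [hw, Equiv.apply_symm_apply]
      have hsw : s w = w := by
        by_contra hne
        have h5 : a ≤ w ∧ w ≤ b := by
          by_contra h
          rw [not_and_or, not_le, not_le] at h
          exact hne (hs w (h.imp le_of_lt le_of_lt))
        have h6 := hE w (by linarith [h5.1]) (by linarith [h5.2])
        rw [hEw] at h6
        rcases h2 with h2 | h2
        · linarith [h5.1]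
        · linarith [h5.2]
      rw [hsw, hEw]
    · rw [Equiv.Perm.extendDomain_apply_not_subtype _ _ hx]

open Classical in
lemma thE_transFam {ρ C : ℝ} (hρ : 0 < ρ) (E : ℝ ≃ Subtype (fun x : ℝ => x ∈ Ioo (-ρ) (4 : ℝ)))
    (hE : ∀ w, -(ρ / 2) ≤ w → w ≤ 3 → (E w : ℝ) = w)
    (hEt : ∀ q : ℝ, 0 ≤ q → q ≤ 1 → ∀ f : Equiv.Perm ℝ, ContDiff ℝ 2 f →
        (∀ w, |f w - w| ≤ q ∧ |deriv f w - 1| ≤ q / (1 + w ^ 2) ∧
          |deriv (deriv f) w| ≤ q / (1 + w ^ 2)) →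
        C2S (C * q) (f.extendDomain E)) :
    TransFam (-(ρ / 2)) 3 (-ρ) 4 C (thE E) where
  add s t := by
    unfold thE
    rw [Equiv.Perm.extendDomain_mul]
    congr 1
    ext x
    simp only [Equiv.coe_addRight, Equiv.Perm.mul_apply]
    ring
  trans t x h1 h2 h3 h4 := by
    unfold thE
    rw [ext_apply_mid hρ E hE _ h1 h2]
    exact hE _ h3 h4
  supp t := supp_ext E _
  small t ht := by
    refine hEt |t| (abs_nonneg t) ht (Equiv.addRight t) ?_ ?_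
    · exact contDiff_id.add contDiff_const
    · intro w
      have h1 : deriv (Equiv.addRight t) = fun _ => (1 : ℝ) := by
        funext x
        exact ((hasDerivAt_id x).add_const t).deriv
      have h2 : (0 : ℝ) ≤ |t| / (1 + w ^ 2) := by positivity
      rw [h1]
      refine ⟨?_, ?_, ?_⟩
      · simp
      · simpa using h2
      · simpa using h2

lemma transFam_zero {A0 A1 B0 B1 C : ℝ} {θ : ℝ → Equiv.Perm ℝ} (h : TransFam A0 A1 B0 B1 C θ) :
    θ 0 = 1 := by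
  have h1 := h.add 0 0
  rw [add_zero] at h1
  exact (mul_eq_left.mp h1.symm)

lemma transFam_mul {A0 A1 B0 B1 C : ℝ} (hC : 0 ≤ C) {θ : ℝ → Equiv.Perm ℝ}
    (h : TransFam A0 A1 B0 B1 C θ) (n : ℕ) :
    ∃ K : ℝ, 0 ≤ K ∧ ∀ t, |t| ≤ 1 → C2S (K * |t|) (θ (n * t)) := by
  induction n with
  | zero =>
    refine ⟨0, le_rfl, fun t _ => ?_⟩
    have h2 : ((0 : ℕ) : ℝ) * t = 0 := by simp
    rw [h2, transFam_zero h]
    refine ⟨contDiff_id, fun x => ?_⟩
    have h1 : deriv (1 : Equiv.Perm ℝ) = fun _ => (1 : ℝ) := by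
      funext x; exact (hasDerivAt_id x).deriv
    rw [h1]; simp
  | succ n ih =>
    obtain ⟨K, hK, hKt⟩ := ih
    refine ⟨K * (1 + C) ^ 2 + (1 + K) * C, by positivity, fun t ht => ?_⟩
    have h1 : θ ((n + 1 : ℕ) * t) = θ (n * t) * θ t := by
      rw [← h.add]; congr 1; push_cast; ring
    have h2 := C2S.comp' hK hC (abs_nonneg t) ht (hKt t ht) (h.small t ht)
    rw [h1, Equiv.Perm.coe_mul]
    exact h2

lemma exists_theta1 : ∃ (C1 : ℝ) (θ : ℝ → Equiv.Perm ℝ), TransFam (1/8) (3/4) 0 1 C1 θ := by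
  obtain ⟨C, hC, E, hE, hEt⟩ := end_coord 1 one_pos le_rfl
  have hθ := thE_transFam one_pos E hE hEt
  obtain ⟨K, hK, hKt⟩ := transFam_mul (by linarith) hθ 5
  have h5 : (1 / 5 : ℝ) ≠ 0 := by norm_num
  refine ⟨5 * K, fun t => (aff (1 / 5) (1 / 5) h5).permCongrHom (thE E (5 * t)), ?_⟩
  refine ⟨fun s t => ?_, fun t x h1 h2 h3 h4 => ?_, fun t x hx => ?_, fun t ht => ?_⟩
  · rw [mul_add, hθ.add, map_mul]
  · show (aff (1 / 5) (1 / 5) h5).permCongr (thE E (5 * t)) x = x + t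
    rw [aff_conj_apply, hθ.trans (5 * t) ((x - 1 / 5) / (1 / 5))]
    · ring
    · linarith
    · linarith
    · linarith
    · linarith
  · show (aff (1 / 5) (1 / 5) h5).permCongr (thE E (5 * t)) x = x
    rw [aff_conj_apply, hθ.supp (5 * t) ((x - 1 / 5) / (1 / 5))]
    · ring
    · rcases hx with hx | hx
      · left; linarith
      · right; linarith
  · have h6 := hKt t ht
    rw [Nat.cast_ofNat] at h6
    have h7 := C2S.aff (w0 := 1 / 5) (κ := 1 / 5) (hκ := h5) (mul_nonneg hK (abs_nonneg t)) _ h6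
      (by norm_num)
    have h8 : max 1 (1 / 5 : ℝ) * max 1 (1 / (1 / 5)) * (K * |t|) = 5 * K * |t| := by
      rw [max_eq_left (by norm_num), max_eq_right (by norm_num)]
      ring
    rw [h8] at h7
    exact h7


lemma sz_chain {s' : Equiv.Perm ℝ} {l' κ e : ℝ} (hκ : κ ≠ 0)
    (h : SZ 4 l' (κ / 8) e s') :
    SZ 4 (1 / 4) (1 / 8) e ((aff (l' - κ / 4) κ hκ).symm.permCongr s') := by
  unfold SZ at h ⊢
  have h1 : (fun x : ℝ => (((aff (l' - κ / 4) κ hκ).symm.permCongr s') (1 / 4 + 1 / 8 * x)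
      - (1 / 4 + 1 / 8 * x)) / (1 / 8)) = fun x => (s' (l' + κ / 8 * x) - (l' + κ / 8 * x)) / (κ / 8) := by
    funext x
    have h2 : ((aff (l' - κ / 4) κ hκ).symm.permCongr s') (1 / 4 + 1 / 8 * x) =
      (s' ((l' - κ / 4) + κ * (1 / 4 + 1 / 8 * x)) - (l' - κ / 4)) / κ := rfl
    rw [h2]
    have h3 : (l' - κ / 4) + κ * (1 / 4 + 1 / 8 * x) = l' + κ / 8 * x := by ring
    rw [h3]
    field_simp
    ring
  rw [h1]
  exact h

lemma conj_symm_conj (e : ℝ ≃ ℝ) (s : Equiv.Perm ℝ) : e.permCongr (e.symm.permCongr s) = s := by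
  ext x; simp [Equiv.permCongr_apply]

open Classical in
theorem perfect_of (hR : RollingStmt) (hCh : ChainStmt) (ρ : ℝ) (hρ : 0 < ρ) (hρ1 : ρ ≤ 1) :
    ∃ C η₀ : ℝ, 0 < η₀ ∧ 1 ≤ C ∧
    ∀ η, 0 < η → η ≤ η₀ → ∀ f : Equiv.Perm ℝ, SuppIn 0 1 f →
      CB 4 (η ^ 2) (fun x => f x - x) →
    ∃ a c : Fin 3 → Equiv.Perm ℝ, (∀ i, SuppIn (-ρ) 4 (a i) ∧ SuppIn (-ρ) 4 (c i) ∧
      C2S (C * η) (a i) ∧ C2S (C * η) (c i)) ∧
      f = comm (a 0) (c 0) * comm (a 1) (c 1) * comm (a 2) (c 2) := by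
  obtain ⟨CE, hCE, E, hE, hEt⟩ := end_coord ρ hρ hρ1
  have hθ := thE_transFam hρ E hE hEt
  obtain ⟨C3, c3, hc3, hC3, hroll⟩ := hR CE
  obtain ⟨C1, θ1, hθ1⟩ := exists_theta1
  obtain ⟨C5, c5, n0, hc5, hC5, hchain⟩ := hCh C1 θ1 hθ1
  set C6 : ℝ := C5 * (2 * C3 + 1) with hC6
  have hC60 : 0 < C6 := by positivity
  have hC61 : 1 ≤ C6 := one_le_mul_of_one_le_of_one_le hC5 (by linarith)
  have hC6E : 0 ≤ C6 * CE := by positivity
  refine ⟨2 * C3 + 16 * CE + 9 * C6 * CE, min (min (1 / 16) (c3 / 2))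
    (min (min (c5 / (2 * C3)) (1 / ((n0 : ℝ) + 1))) (1 / (9 * C6))), by positivity, by linarith, ?_⟩
  intro η hη hη0 f hfs hfc
  simp only [le_min_iff] at hη0
  obtain ⟨⟨hη16, hηc3⟩, ⟨hηc5, hηn0⟩, hηC6⟩ := hη0
  -- first step
  obtain ⟨n, hn⟩ : ∃ n : ℕ, n = ⌈1 / η⌉₊ := ⟨_, rfl⟩
  have hn1 : 1 / η ≤ n := by rw [hn]; exact Nat.le_ceil _
  have hn2 : (n : ℝ) < 1 / η + 1 := by rw [hn]; exact Nat.ceil_lt_add_one (by positivity)
  have hnη1 : 1 ≤ n * η := by rwa [div_le_iff₀ hη] at hn1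
  have hnη2 : n * η ≤ 2 := by
    have : n * η < (1 / η + 1) * η := by gcongr
    have h2 : (1 / η + 1) * η = 1 + η := by field_simp
    linarith
  have hn16 : (16 : ℝ) ≤ n := by
    have : (16 : ℝ) ≤ 1 / η := by
      rw [le_div_iff₀ hη]; linarith
    linarith
  have hn0' : (0 : ℝ) < n := by linarith
  have hn8 : 8 ≤ n := by
    have : (8 : ℝ) ≤ n := by linarith
    exact_mod_cast this
  have hne : n * η ^ 2 ≤ 2 * η := by
    calc n * η ^ 2 = n * η * η := by ring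
      _ ≤ 2 * η := mul_le_mul_of_nonneg_right hnη2 hη.le
  have hSZ : SZ 4 0 1 (η ^ 2) f := by
    unfold SZ
    have : (fun x => (f (0 + 1 * x) - (0 + 1 * x)) / 1) = fun x => f x - x := by
      funext x; simp
    rw [this]; exact hfc
  obtain ⟨a0, s', l', hf1, ha0s, ha0c, ha0b, hl1, hl2, hs's, hs'z⟩ :=
    hroll (-(ρ / 2)) 3 (-ρ) 4 (thE E) hθ (by linarith) (by norm_num) 0 1 (η ^ 2) n f (by linarith)
      (by norm_num) one_pos le_rfl hn8 (by positivity) (by linarith) (by simpa using hfs) hSZ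
  rw [zero_add] at hl1
  rw [zero_add, mul_one] at hl2
  -- second coordinate
  obtain ⟨κ, hκd⟩ : ∃ κ : ℝ, κ = 16 / n := ⟨_, rfl⟩
  have hκ0 : 0 < κ := by rw [hκd]; positivity
  have hκ1 : κ ≤ 1 := by rw [hκd, div_le_one hn0']; exact hn16
  have hκne : κ ≠ 0 := hκ0.ne'
  have hκη : κ ≤ 16 * η := by
    rw [hκd, div_le_iff₀ hn0']; linarith
  have hκ8 : 2 * (1 / (n : ℝ)) = κ / 8 := by rw [hκd]; ring
  rw [hκ8] at hl2 hs's hs'z
  obtain ⟨w0, hw0⟩ : ∃ w0 : ℝ, w0 = l' - κ / 4 := ⟨_, rfl⟩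
  have hw01 : 0 ≤ w0 := by rw [hw0]; linarith
  have hw02 : w0 ≤ 2 := by rw [hw0]; linarith
  obtain ⟨e', he'⟩ : ∃ e' : ℝ, e' = C3 * η ^ 2 / n ^ 2 := ⟨_, rfl⟩
  rw [← he'] at hs'z
  have he'0 : 0 ≤ e' := by rw [he']; positivity
  have he'1 : e' ≤ C3 * η ^ 4 := by
    rw [he', div_le_iff₀ (by positivity)]
    have : 1 ≤ (n * η) ^ 2 := one_le_pow₀ hnη1
    have h2 : C3 * η ^ 4 * n ^ 2 = C3 * η ^ 2 * (n * η) ^ 2 := by ring
    rw [h2]
    have h3 : 0 ≤ C3 * η ^ 2 := by positivity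
    exact le_mul_of_one_le_right h3 this
  have hs'' := sz_chain hκne hs'z
  rw [← hw0] at hs''
  obtain ⟨s'', hs''d⟩ : ∃ s'' : Equiv.Perm ℝ, s'' = (aff w0 κ hκne).symm.permCongr s' := ⟨_, rfl⟩
  rw [← hs''d] at hs''
  have hs''s : SuppIn (1 / 4) (3 / 8) s'' := by
    intro y hy
    have h1 : s'' y = (s' (w0 + κ * y) - w0) / κ := by rw [hs''d]; rfl
    have h2 : s' (w0 + κ * y) = w0 + κ * y := by
      refine hs's _ ?_
      rcases hy with hy | hy
      · left; rw [hw0]; have := mul_le_mul_of_nonneg_left hy hκ0.le; linarith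
      · right; rw [hw0]; have := mul_le_mul_of_nonneg_left hy hκ0.le; linarith
    rw [h1, h2]; field_simp; ring
  -- the number of steps
  obtain ⟨n', hn'⟩ : ∃ n' : ℕ, n' = ⌈(η ^ 2)⁻¹⌉₊ := ⟨_, rfl⟩
  have hη2 : 0 < η ^ 2 := by positivity
  have hn'1 : (η ^ 2)⁻¹ ≤ n' := by rw [hn']; exact Nat.le_ceil _
  have hn'2 : (n' : ℝ) < (η ^ 2)⁻¹ + 1 := by rw [hn']; exact Nat.ceil_lt_add_one (by positivity)
  have hn'η1 : 1 ≤ n' * η ^ 2 := by
    have h1 : (η ^ 2)⁻¹ * η ^ 2 ≤ n' * η ^ 2 := by gcongr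
    rwa [inv_mul_cancel₀ hη2.ne'] at h1
  have hη1 : η ≤ 1 := by linarith
  have hη21 : η ^ 2 ≤ η := by rw [sq]; exact mul_le_of_le_one_left hη.le hη1
  have hn'η2 : n' * η ^ 2 ≤ 2 := by
    have : n' * η ^ 2 < ((η ^ 2)⁻¹ + 1) * η ^ 2 := by gcongr
    have h2 : ((η ^ 2)⁻¹ + 1) * η ^ 2 = 1 + η ^ 2 := by field_simp
    linarith
  have hn'pos : (0 : ℝ) < n' := lt_of_lt_of_le (inv_pos.2 hη2) hn'1
  have hn'n0 : n0 ≤ n' := by
    have h1 : (n0 : ℝ) + 1 ≤ 1 / η := by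
      rw [le_div_iff₀ hη]
      rw [le_div_iff₀ (by positivity)] at hηn0
      linarith
    have h2 : 1 / η ≤ n' := by
      rw [div_le_iff₀ hη]; exact hn'η1.trans (mul_le_mul_of_nonneg_left hη21 hn'pos.le)
    have : (n0 : ℝ) ≤ n' := by linarith
    exact_mod_cast this
  have hn'e1 : n' * e' ≤ 2 * C3 * η ^ 2 := by
    calc n' * e' ≤ n' * (C3 * η ^ 4) := by gcongr
      _ = (n' * η ^ 2) * (C3 * η ^ 2) := by ring
      _ ≤ 2 * (C3 * η ^ 2) := by gcongr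
      _ = _ := by ring
  have hn'e2 : n' * e' ≤ c5 := by
    rw [le_div_iff₀ (by positivity)] at hηc5
    have h1 : 2 * C3 * η ^ 2 ≤ 2 * C3 * η := mul_le_mul_of_nonneg_left hη21 (by positivity)
    linarith
  have hδ : C5 * (n' * e' + 1 / n') ≤ C6 * η ^ 2 := by
    have h1 : 1 / (n' : ℝ) ≤ η ^ 2 := by
      rw [div_le_iff₀ hn'pos]; linarith
    calc C5 * (n' * e' + 1 / n') ≤ C5 * (2 * C3 * η ^ 2 + η ^ 2) := by gcongr
      _ = _ := by rw [hC6]; ring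
  obtain ⟨A, T, R, hsATR, hb⟩ := hchain n' e' s'' hn'n0 he'0 hn'e2 hs''s hs''
  -- transfer
  have hq1 : 9 * C6 * η ≤ 1 := by
    rw [le_div_iff₀ (by positivity)] at hηC6; linarith
  have hstep : C6 * η ^ 2 ≤ C6 * η := by gcongr
  have htr : ∀ g : Equiv.Perm ℝ, g = A ∨ g = T ∨ g = R →
      C2S (CE * (9 * C6 * η)) (((aff w0 κ hκne).permCongr g).extendDomain E) := by
    intro g hg
    obtain ⟨-, hgc, hgb⟩ := hb g hg
    refine hEt (9 * C6 * η) (by positivity) hq1 _ (aff_contDiff g hgc) (fun w => ?_)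
    obtain ⟨y, hy⟩ : ∃ y : ℝ, y = (w - w0) / κ := ⟨_, rfl⟩
    have hw : w = w0 + κ * y := by rw [hy]; field_simp; ring
    obtain ⟨b0, b1, b2⟩ := hgb y
    have hy1 : 0 < 1 + y ^ 2 := by positivity
    have hw1 : 0 < 1 + w ^ 2 := by positivity
    have hcmp : 1 / (1 + y ^ 2) ≤ 9 / (1 + w ^ 2) := by
      rw [div_le_div_iff₀ hy1 hw1, hw]
      have h1 : (κ * y) ^ 2 ≤ y ^ 2 := by
        rw [mul_pow]
        have : κ ^ 2 ≤ 1 := pow_le_one₀ hκ0.le hκ1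
        exact mul_le_of_le_one_left (sq_nonneg y) this
      have h2 : w0 ^ 2 ≤ 2 ^ 2 := pow_le_pow_left₀ hw01 hw02 2
      have h3 := sq_nonneg (w0 - κ * y)
      have h4 : (w0 + κ * y) ^ 2 = 2 * w0 ^ 2 + 2 * (κ * y) ^ 2 - (w0 - κ * y) ^ 2 := by ring
      rw [h4]
      have h5 := sq_nonneg y
      linarith
    have hy11 : 1 / (1 + y ^ 2) ≤ 1 := by
      rw [div_le_one hy1]; linarith [sq_nonneg y]
    have hC6η : 0 ≤ C6 * η ^ 2 := by positivity
    refine ⟨?_, ?_, ?_⟩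
    · rw [aff_conj_apply, ← hy]
      have h1 : w0 + κ * g y - w = κ * (g y - y) := by rw [hw]; ring
      rw [h1, abs_mul, abs_of_pos hκ0]
      calc κ * |g y - y| ≤ 1 * (C5 * (n' * e' + 1 / n') / (1 + y ^ 2)) := by gcongr
        _ = C5 * (n' * e' + 1 / n') * (1 / (1 + y ^ 2)) := by ring
        _ ≤ (C6 * η ^ 2) * 1 := by gcongr
        _ ≤ 9 * C6 * η := by
            have : 0 ≤ C6 * η := by positivity
            linarith
    · rw [aff_deriv g hgc]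
      simp only [← hy]
      calc |deriv g y - 1| ≤ C5 * (n' * e' + 1 / n') / (1 + y ^ 2) := b1
        _ = C5 * (n' * e' + 1 / n') * (1 / (1 + y ^ 2)) := by ring
        _ ≤ (C6 * η) * (9 / (1 + w ^ 2)) := by
            have h2 : (0:ℝ) ≤ 1 / (1 + y ^ 2) := by positivity
            calc C5 * (n' * e' + 1 / n') * (1 / (1 + y ^ 2)) ≤ (C6 * η) * (1 / (1 + y ^ 2)) :=
                  mul_le_mul_of_nonneg_right (hδ.trans hstep) h2
              _ ≤ _ := mul_le_mul_of_nonneg_left hcmp (by positivity)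
        _ = _ := by ring
    · rw [aff_deriv2 g hgc, ← hy, abs_div, abs_of_pos hκ0]
      have h3 : C5 * (n' * e' + 1 / n') / κ ≤ C6 * η := by
        rw [div_le_iff₀ hκ0]
        refine hδ.trans ?_
        have h4 : 16 * η ≤ 16 * κ := by
          rw [hκd]
          have : η ≤ 2 / n := by rw [le_div_iff₀ hn0']; linarith
          have h5 : 16 * (16 / (n : ℝ)) = 128 * (2 / n) := by ring
          rw [h5]
          have h6 : (0 : ℝ) ≤ 2 / n := by positivity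
          linarith
        have h7 : η ≤ κ := by linarith
        calc C6 * η ^ 2 = C6 * η * η := by ring
          _ ≤ C6 * η * κ := by gcongr
      calc |deriv (deriv g) y| / κ ≤ (C5 * (n' * e' + 1 / n') / (1 + y ^ 2)) / κ := by gcongr
        _ = (C5 * (n' * e' + 1 / n') / κ) * (1 / (1 + y ^ 2)) := by ring
        _ ≤ (C6 * η) * (9 / (1 + w ^ 2)) := by
            have h2 : (0:ℝ) ≤ 1 / (1 + y ^ 2) := by positivity
            calc (C5 * (n' * e' + 1 / n') / κ) * (1 / (1 + y ^ 2)) ≤ (C6 * η) * (1 / (1 + y ^ 2)) :=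
                  mul_le_mul_of_nonneg_right h3 h2
              _ ≤ _ := mul_le_mul_of_nonneg_left hcmp (by positivity)
        _ = _ := by ring
  -- the homomorphism
  let φ : Equiv.Perm ℝ →* Equiv.Perm ℝ :=
    (Equiv.Perm.extendDomainHom E).comp (aff w0 κ hκne).permCongrHom.toMonoidHom
  have hφ : ∀ g, φ g = ((aff w0 κ hκne).permCongr g).extendDomain E := fun g => rfl
  have hφs : φ s'' = s' := by
    rw [hφ, hs''d, conj_symm_conj]
    exact ext_self hρ E hE s' (a := l') (b := l' + κ / 8) (by linarith) (by linarith) (by linarith)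
      hs's
  have hφsh : φ (Equiv.addRight (1 : ℝ)) = thE E κ := by
    rw [hφ]
    unfold thE
    congr 1
    ext w
    rw [aff_conj_apply]
    simp only [Equiv.coe_addRight]
    field_simp
    ring
  have hs'eq : s' = comm (φ A) (φ T) * comm (φ R) (thE E κ) := by
    rw [← hφs, hsATR, map_mul, map_comm, map_comm, hφsh]
  have hBC : ∀ x : ℝ, 0 ≤ x → CE * (9 * C6 * η) ≤ (2 * C3 + 16 * CE + 9 * C6 * CE) * η := by
    intro x _
    have : 0 ≤ (2 * C3 + 16 * CE) * η := by positivity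
    linarith
  have hθκ : C2S ((2 * C3 + 16 * CE + 9 * C6 * CE) * η) (thE E κ) := by
    refine (hθ.small κ (by rw [abs_of_pos hκ0]; exact hκ1)).mono ?_
    rw [abs_of_pos hκ0]
    have h1 : CE * κ ≤ CE * (16 * η) := by gcongr
    have : 0 ≤ (2 * C3 + 9 * C6 * CE) * η := by positivity
    linarith
  have hθn : C2S ((2 * C3 + 16 * CE + 9 * C6 * CE) * η) (thE E (1 / n)) := by
    have h0 : (0 : ℝ) < 1 / n := by positivity
    have h00 : 1 / (n : ℝ) ≤ η := by rw [div_le_iff₀ hn0']; linarith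
    refine (hθ.small (1 / n) (by rw [abs_of_pos h0]; linarith)).mono ?_
    rw [abs_of_pos h0]
    have h1 : CE * (1 / n) ≤ CE * η := by gcongr
    have : 0 ≤ (2 * C3 + 9 * C6 * CE + 15 * CE) * η := by positivity
    linarith
  have ha0 : C2S ((2 * C3 + 16 * CE + 9 * C6 * CE) * η) a0 := by
    have h1 : C3 * (n * η ^ 2) ≤ (2 * C3 + 16 * CE + 9 * C6 * CE) * η := by
      have h2 : C3 * (n * η ^ 2) ≤ C3 * (2 * η) := by gcongr
      have : 0 ≤ (16 * CE + 9 * C6 * CE) * η := by positivity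
      linarith
    refine ⟨ha0c, fun x => ?_⟩
    obtain ⟨b0, b1, b2⟩ := ha0b x
    rw [mul_one] at b0
    rw [div_one] at b2
    exact ⟨b0.trans h1, b1.trans h1, b2.trans h1⟩
  refine ⟨![a0, φ A, φ R], ![thE E (1 / n), φ T, thE E κ], ?_, ?_⟩
  · intro i
    fin_cases i
    · exact ⟨ha0s, supp_ext E _, ha0, hθn⟩
    · exact ⟨supp_ext E _, supp_ext E _, (htr A (Or.inl rfl)).mono (hBC 0 le_rfl),
        (htr T (Or.inr (Or.inl rfl))).mono (hBC 0 le_rfl)⟩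
    · exact ⟨supp_ext E _, supp_ext E _, (htr R (Or.inr (Or.inr rfl))).mono (hBC 0 le_rfl), hθκ⟩
  · show f = comm a0 (thE E (1 / n)) * comm (φ A) (φ T) * comm (φ R) (thE E κ)
    rw [mul_assoc, ← hs'eq]
    exact hf1

end

end Pool.Agent.Germ
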