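import Pool.Agent.Helper69.Germ.Chain
import Pool.Agent.Helper37.Germ.Rolling

/-!
# Rolling, chain and perfectness lemmas of MP_91c48b_an, unconditional
-/

open Filter Topology Set

namespace Pool.Agent.Germ

theorem rollingStmt : RollingStmt := fun Cθ => rolling Cθ

theorem chain (C1 : ℝ) (θ : ℝ → Equiv.Perm ℝ) (hθ : TransFam (1/8) (3/4) 0 1 C1 θ) :
    ∃ C c0 : ℝ, ∃ n0 : ℕ, 0 < c0 ∧ 1 ≤ C ∧ ∀ (n : ℕ) (e : ℝ) (s : Equiv.Perm ℝ), n0 ≤ n → 0 ≤ e →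
      n * e ≤ c0 → SuppIn (1/4) (3/8) s → SZ 4 (1/4) (1/8) e s →
      ∃ A T R : Equiv.Perm ℝ, s = comm A T * comm R (Equiv.addRight (1 : ℝ)) ∧
        ∀ f : Equiv.Perm ℝ, f = A ∨ f = T ∨ f = R → (∀ y ≤ 0, f y = y) ∧ ContDiff ℝ 2 f ∧
          ∀ y, |f y - y| ≤ C * (n * e + 1 / n) / (1 + y ^ 2) ∧
            |deriv f y - 1| ≤ C * (n * e + 1 / n) / (1 + y ^ 2) ∧
            |deriv (deriv f) y| ≤ C * (n * e + 1 / n) / (1 + y ^ 2) :=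
  chain_of rollingStmt C1 θ hθ

theorem perfect (ρ : ℝ) (hρ : 0 < ρ) (hρ1 : ρ ≤ 1) : ∃ C η₀ : ℝ, 0 < η₀ ∧ 1 ≤ C ∧
    ∀ η, 0 < η → η ≤ η₀ → ∀ f : Equiv.Perm ℝ, SuppIn 0 1 f →
      CB 4 (η ^ 2) (fun x => f x - x) →
    ∃ a c : Fin 3 → Equiv.Perm ℝ, (∀ i, SuppIn (-ρ) 4 (a i) ∧ SuppIn (-ρ) 4 (c i) ∧
      C2S (C * η) (a i) ∧ C2S (C * η) (c i)) ∧
      f = comm (a 0) (c 0) * comm (a 1) (c 1) * comm (a 2) (c 2) :=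
  perfect_of rollingStmt (chain_of rollingStmt) ρ hρ hρ1

end Pool.Agent.Germ
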